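import Pool.Agent.K4H30.LC.Pos

/-! The integral of a form over a curve is well defined. -/

set_option autoImplicit false
set_option linter.unusedSectionVars false

namespace Pool.Agent.K4H30.LC

open Set Function Filter TopologicalSpace MeasureTheory
open scoped Manifold Topology Distributions ContDiff

variable {L V : Type*} [NormedAddCommGroup L] [NormedSpace ℂ L] [NormedAddCommGroup V]
  [NormedSpace ℝ V]

theorem alt_scale {E : Type*} [NormedAddCommGroup E] [NormedSpace ℝ E]
    (a : E [⋀^Fin 2]→L[ℝ] ℝ) (x y : E) (s t : ℝ) :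
    a ![s • x + t • y, (-t) • x + s • y] = (s ^ 2 + t ^ 2) * a ![x, y] := by
  have h0 : ∀ v : E, a ![v, v] = 0 := fun v => a.map_eq_zero_of_eq ![v, v] (i := 0) (j := 1) rfl
    (by decide)
  have hadd : ∀ u v w : E, a ![u + v, w] = a ![u, w] + a ![v, w] := fun u v w =>
    a.vecCons_add ![w] u v
  have hsmul : ∀ (r : ℝ) (u w : E), a ![r • u, w] = r * a ![u, w] := fun r u w =>
    a.vecCons_smul ![w] r u
  have hsw : ∀ u w : E, a ![u, w] = - a ![w, u] := by
    intro u w
    have h := h0 (u + w)
    rw [hadd] at h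
    have h1 : ∀ u v w : E, a ![u, v + w] = a ![u, v] + a ![u, w] := by
      intro u v w
      have hup : ∀ x : E, Function.update ![u, v] 1 x = ![u, x] := by
        intro x
        funext i
        fin_cases i <;> rfl
      have e := a.map_update_add ![u, v] 1 v w
      rw [hup, hup, hup] at e
      exact e
    rw [h1, h1, h0, h0] at h
    linarith
  rw [hadd, hsmul, hsmul, hsw x, hsw y, hadd, hadd, hsmul, hsmul, hsmul, hsmul, h0, h0, hsw y x]
  ring

theorem mul_det (c : ℂ) : ((ContinuousLinearMap.mul ℝ ℂ) c).det = Complex.normSq c := by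
  rw [← Algebra.norm_complex_apply]
  rfl

theorem change (U : Opens (L × V)) (C : Curve U) (α : Form U 2)
    {e e' : OpenPartialHomeomorph C.S ℂ} (he : e ∈ atlas ℂ C.S) (he' : e' ∈ atlas ℂ C.S)
    (f : C.S → ℝ) (hfe : tsupport f ⊆ e.source) (hfe' : tsupport f ⊆ e'.source) :
    ∫ z in e.target, f (e.symm z) * C.coeff α e z =
      ∫ z in e'.target, f (e'.symm z) * C.coeff α e' z := by
  set s : Set ℂ := e.target ∩ e.symm ⁻¹' e'.source with hs
  set s' : Set ℂ := e'.target ∩ e'.symm ⁻¹' e.source with hs'
  have hso : IsOpen s := e.isOpen_inter_preimage_symm e'.open_source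
  have hso' : IsOpen s' := e'.isOpen_inter_preimage_symm e.open_source
  set g : ℂ → ℂ := e' ∘ e.symm with hg
  have himg : g '' s = s' := by
    ext w
    constructor
    · rintro ⟨z, ⟨hz1, hz2⟩, rfl⟩
      refine ⟨e'.map_source hz2, ?_⟩
      show e'.symm (e' (e.symm z)) ∈ e.source
      rw [e'.left_inv hz2]
      exact e.map_target hz1
    · rintro ⟨hw1, hw2⟩
      refine ⟨e (e'.symm w), ⟨e.map_source hw2, ?_⟩, ?_⟩
      · show e.symm (e (e'.symm w)) ∈ e'.source
        rw [e.left_inv hw2]
        exact e'.map_target hw1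
      · show e' (e.symm (e (e'.symm w))) = w
        rw [e.left_inv hw2, e'.right_inv hw1]
  have hinj : InjOn g s := by
    intro z hz w hw hzw
    have h1 : e.symm z = e.symm w := e'.injOn hz.2 hw.2 hzw
    exact e.symm.injOn hz.1 hw.1 h1
  have hgd : ∀ z ∈ s, DifferentiableAt ℂ g z := by
    intro z hz
    have h1 : MDifferentiableAt 𝓘(ℂ) 𝓘(ℂ) e.symm z := mdifferentiableAt_atlas_symm he hz.1
    have h2 : MDifferentiableAt 𝓘(ℂ) 𝓘(ℂ) e' (e.symm z) := mdifferentiableAt_atlas he' hz.2
    exact (h2.comp z h1).differentiableAt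
  have e1 : ∫ z in e.target, f (e.symm z) * C.coeff α e z =
      ∫ z in s, f (e.symm z) * C.coeff α e z := by
    apply setIntegral_eq_of_subset_of_forall_sdiff_eq_zero e.open_target.measurableSet
      inter_subset_left
    rintro z ⟨hz1, hz2⟩
    have : f (e.symm z) = 0 := by
      by_contra h
      exact hz2 ⟨hz1, hfe' (subset_tsupport _ h)⟩
    rw [this, zero_mul]
  have e2 : ∫ z in e'.target, f (e'.symm z) * C.coeff α e' z =
      ∫ z in s', f (e'.symm z) * C.coeff α e' z := by
    apply setIntegral_eq_of_subset_of_forall_sdiff_eq_zero e'.open_target.measurableSet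
      inter_subset_left
    rintro z ⟨hz1, hz2⟩
    have : f (e'.symm z) = 0 := by
      by_contra h
      exact hz2 ⟨hz1, hfe (subset_tsupport _ h)⟩
    rw [this, zero_mul]
  rw [e1, e2, ← himg, integral_image_eq_integral_abs_det_fderiv_smul volume hso.measurableSet
    (f' := fun z => (ContinuousLinearMap.mul ℝ ℂ) (deriv g z)) ?_ hinj]
  · refine setIntegral_congr_fun hso.measurableSet fun z hz => ?_
    show f (e.symm z) * C.coeff α e z =
      |((ContinuousLinearMap.mul ℝ ℂ) (deriv g z)).det| • (f (e'.symm (g z)) * C.coeff α e' (g z))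
    have h1 : e'.symm (g z) = e.symm z := e'.left_inv hz.2
    rw [mul_det, abs_of_nonneg (Complex.normSq_nonneg _), h1, smul_eq_mul]
    have h2 : C.coeff α e z = Complex.normSq (deriv g z) * C.coeff α e' (g z) := by
      rw [Curve.coeff_eq, Curve.coeff_eq]
      rw [h1]
      have h3 : (C.u ∘ e.symm) =ᶠ[𝓝 z] (C.u ∘ e'.symm) ∘ g := by
        filter_upwards [hso.mem_nhds hz] with w hw
        show C.u (e.symm w) = C.u (e'.symm (e' (e.symm w)))
        rw [e'.left_inv hw.2]
      have h4 : fderiv ℂ (C.u ∘ e.symm) z =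
          (fderiv ℂ (C.u ∘ e'.symm) (g z)).comp (fderiv ℂ g z) := by
        rw [h3.fderiv_eq]
        exact fderiv_comp z (diffAt_symm C.mdiff he' (e'.map_source hz.2)) (hgd z hz)
      have h5 : ∀ c : ℂ, fderiv ℂ (C.u ∘ e.symm) z c =
          (deriv g z * c) • fderiv ℂ (C.u ∘ e'.symm) (g z) 1 := by
        intro c
        have h8 : fderiv ℂ g z c = (deriv g z * c) • (1 : ℂ) := by
          rw [fderiv_eq_smul_deriv, smul_eq_mul, smul_eq_mul, mul_one, mul_comm]
        rw [h4, ContinuousLinearMap.comp_apply, h8, map_smul]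
      have h6 : ∀ c : ℂ, fderiv ℂ (C.u ∘ e'.symm) (g z) c =
          c • fderiv ℂ (C.u ∘ e'.symm) (g z) 1 := by
        intro c
        rw [← map_smul, smul_eq_mul, mul_one]
      have h9 : ∀ (C : Curve U) (e : OpenPartialHomeomorph C.S ℂ) (z : ℂ),
          Complex.I • fderiv ℂ (C.u ∘ e.symm) z 1 = fderiv ℂ (C.u ∘ e.symm) z Complex.I := by
        intro C e z
        rw [← map_smul, smul_eq_mul, mul_one]
      rw [h9, h9, h5, h5, h6 Complex.I]
      set X : L := fderiv ℂ (C.u ∘ e'.symm) (g z) 1
      have h7 := alt_scale (α (C.u (e.symm z), C.s)) ((X, 0) : L × V) (Complex.I • X, 0)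
        (deriv g z).re (deriv g z).im
      rw [Complex.normSq_apply, ← pow_two, ← pow_two, ← h7]
      congr 2
      · refine Prod.ext ?_ (by simp)
        show (deriv g z * 1) • X = (deriv g z).re • X + (deriv g z).im • (Complex.I • X)
        rw [← Complex.coe_smul, ← Complex.coe_smul, smul_smul, ← add_smul, mul_one,
          Complex.re_add_im]
      · congr 1
        refine Prod.ext ?_ (by simp)
        show (deriv g z * Complex.I) • X =
          (-(deriv g z).im) • X + (deriv g z).re • (Complex.I • X)
        rw [← Complex.coe_smul, ← Complex.coe_smul, smul_smul, ← add_smul]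
        congr 1
        apply Complex.ext <;> simp
    rw [h2]
    ring
  · intro z hz
    have h1 : HasDerivAt g (deriv g z) z := (hgd z hz).hasDerivAt
    have h2 := h1.hasFDerivAt.restrictScalars ℝ
    refine (h2.congr_fderiv ?_).hasFDerivWithinAt
    ext x
    simp [mul_comm]

theorem coeff_cont [CompleteSpace L] {U : Opens (L × V)} (C : Curve U) (α : Form U 2)
    {e : OpenPartialHomeomorph C.S ℂ} (he : e ∈ atlas ℂ C.S) :
    ContinuousOn (C.coeff α e) e.target := by
  have k3 : ContinuousOn (fun z => fderiv ℂ (C.u ∘ e.symm) z) e.target := by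
    have h := (diffOn_symm C.mdiff he).analyticOnNhd e.open_target
    exact h.fderiv.continuousOn
  have k2 : ContinuousOn (fun z => α (C.u (e.symm z), C.s)) e.target := by
    refine (TestFunction.contDiff α).continuous.comp_continuousOn ?_
    exact (C.continuous.comp_continuousOn e.continuousOn_symm).prodMk continuousOn_const
  have k4 : ContinuousOn (fun z => (![(fderiv ℂ (C.u ∘ e.symm) z 1, 0),
      (Complex.I • fderiv ℂ (C.u ∘ e.symm) z 1, 0)] : Fin 2 → L × V)) e.target := by
    rw [continuousOn_pi]
    intro i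
    fin_cases i
    · exact (k3.clm_apply continuousOn_const).prodMk continuousOn_const
    · exact ((k3.clm_apply continuousOn_const).const_smul Complex.I).prodMk continuousOn_const
  exact k2.eval k4

theorem int_on [CompleteSpace L] {U : Opens (L × V)} (C : Curve U) (α : Form U 2)
    {e : OpenPartialHomeomorph C.S ℂ} (he : e ∈ atlas ℂ C.S) {f : C.S → ℝ} (hf : Continuous f)
    (hc : HasCompactSupport f) (hfe : tsupport f ⊆ e.source) :
    IntegrableOn (fun z => f (e.symm z) * C.coeff α e z) e.target := by
  have hFc : ContinuousOn (fun z => f (e.symm z) * C.coeff α e z) e.target :=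
    (hf.comp_continuousOn e.continuousOn_symm).mul (coeff_cont C α he)
  have hKc : IsCompact (e '' tsupport f) := hc.image_of_continuousOn (e.continuousOn.mono hfe)
  have hKt : e '' tsupport f ⊆ e.target := by
    rintro _ ⟨q, hq, rfl⟩
    exact e.map_source (hfe hq)
  refine ((hFc.mono hKt).integrableOn_compact hKc).of_forall_sdiff_eq_zero
    e.open_target.measurableSet ?_
  rintro z ⟨hz1, hz2⟩
  have : f (e.symm z) = 0 := by
    by_contra h
    apply hz2
    exact ⟨e.symm z, subset_tsupport _ h, e.right_inv hz1⟩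
  rw [this, zero_mul]

theorem split [CompleteSpace L] {U : Opens (L × V)} (C : Curve U) (α : Form U 2) {m : ℕ}
    (ρ : Fin m → C.S → ℝ) (hρc : ∀ i, Continuous (ρ i))
    (hsum : ∀ p, (C.u p, C.s) ∈ tsupport α → ∑ i, ρ i p = 1)
    {e : OpenPartialHomeomorph C.S ℂ} (he : e ∈ atlas ℂ C.S) {f : C.S → ℝ} (hf : Continuous f)
    (hc : HasCompactSupport f) (hfe : tsupport f ⊆ e.source) :
    ∫ z in e.target, f (e.symm z) * C.coeff α e z =
      ∑ j, ∫ z in e.target, (f (e.symm z) * ρ j (e.symm z)) * C.coeff α e z := by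
  rw [← integral_finsetSum]
  · refine setIntegral_congr_fun e.open_target.measurableSet fun z hz => ?_
    show f (e.symm z) * C.coeff α e z = ∑ j, (f (e.symm z) * ρ j (e.symm z)) * C.coeff α e z
    rw [← Finset.sum_mul, ← Finset.mul_sum]
    by_cases h : (C.u (e.symm z), C.s) ∈ tsupport α
    · rw [hsum _ h, mul_one]
    · have h0 : C.coeff α e z = 0 := by
        unfold Curve.coeff
        rw [image_eq_zero_of_notMem_tsupport h]
        rfl
      rw [h0, mul_zero, mul_zero]
  · intro j _
    exact int_on C α he (f := fun p => f p * ρ j p) (hf.mul (hρc j)) hc.mul_right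
      ((tsupport_mul_subset_left (f := f) (g := ρ j)).trans hfe)

/-- The integral of the pull-back of a form over a curve exists and is unique. -/
theorem existsUnique_integral [CompleteSpace L] (U : Opens (L × V)) (C : Curve U)
    (α : Form U 2) : ∃! I, C.IsIntegral α I := by
  refine existsUnique_of_exists_of_unique ?_ ?_
  · have : LocallyCompactSpace C.S := ChartedSpace.locallyCompactSpace ℂ C.S
    set K : Set C.S := {p | (C.u p, C.s) ∈ tsupport α} with hK
    have hKc : IsCompact K := by
      have h1 : IsCompact ((Subtype.val : U → L × V) ⁻¹' tsupport α) := by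
        rw [Topology.IsInducing.subtypeVal.isCompact_preimage_iff]
        · exact TestFunction.hasCompactSupport α
        · rw [Subtype.range_val]
          exact TestFunction.tsupport_subset α
      exact C.proper.isCompact_preimage h1
    obtain ⟨t, ht⟩ := hKc.elim_finite_subcover (fun p : C.S => (chartAt ℂ p).source)
      (fun p => (chartAt ℂ p).open_source)
      (fun p _ => mem_iUnion.2 ⟨p, mem_chart_source ℂ p⟩)
    obtain ⟨f, hf1, hf2, hf3, hf4⟩ := exists_continuous_sum_one_of_isOpen_isCompact
      (s := fun i : Fin t.card => (chartAt ℂ (t.equivFin.symm i).1).source)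
      (fun i => (chartAt ℂ _).open_source) hKc (by
        intro p hp
        obtain ⟨q, hq, hpq⟩ := mem_iUnion₂.1 (ht hp)
        exact mem_iUnion.2 ⟨t.equivFin ⟨q, hq⟩, by simpa using hpq⟩)
    refine ⟨_, t.card, fun i => chartAt ℂ (t.equivFin.symm i).1, fun i => f i,
      fun i => chart_mem_atlas ℂ _, fun i => (f i).continuous, fun i p => (hf3 i p).1,
      hf4, hf1, ?_, rfl⟩
    intro p hp
    have := hf2 hp
    simpa using this
  · rintro I I' ⟨n, e, ρ, he, hρc, hρ, hρs, hρt, hsum, hI⟩
      ⟨n', e', ρ', he', hρc', hρ', hρs', hρt', hsum', hI'⟩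
    rw [hI, hI']
    have h1 : ∀ i, ∫ z in (e i).target, ρ i ((e i).symm z) * C.coeff α (e i) z =
        ∑ j, ∫ z in (e i).target, (ρ i ((e i).symm z) * ρ' j ((e i).symm z)) *
          C.coeff α (e i) z :=
      fun i => split C α ρ' hρc' hsum' (he i) (hρc i) (hρs i) (hρt i)
    have h2 : ∀ j, ∫ z in (e' j).target, ρ' j ((e' j).symm z) * C.coeff α (e' j) z =
        ∑ i, ∫ z in (e' j).target, (ρ' j ((e' j).symm z) * ρ i ((e' j).symm z)) *
          C.coeff α (e' j) z :=
      fun j => split C α ρ hρc hsum (he' j) (hρc' j) (hρs' j) (hρt' j)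
    simp only [h1, h2]
    rw [Finset.sum_comm]
    refine Finset.sum_congr rfl fun j _ => Finset.sum_congr rfl fun i _ => ?_
    have h3 := change U C α (he i) (he' j) (fun p => ρ i p * ρ' j p)
      ((tsupport_mul_subset_left (f := ρ i) (g := ρ' j)).trans (hρt i))
      ((tsupport_mul_subset_right (f := ρ i) (g := ρ' j)).trans (hρt' j))
    rw [h3]
    refine integral_congr_ae (Eventually.of_forall fun z => ?_)
    show (ρ i _ * ρ' j _) * _ = (ρ' j _ * ρ i _) * _
    ring

end Pool.Agent.K4H30.LC
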