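import Pool.Agent.K4H30.LC.Pos

/-! The tropical current `dd^c max (0, Re z₁, Re z₂)` on `ℂ²`. -/

set_option autoImplicit false
set_option linter.unusedSectionVars false

namespace Pool.Agent.K4H30.LC

open Set Function Filter TopologicalSpace MeasureTheory
open scoped Manifold Topology Distributions ContDiff

variable (W V : Type) [NormedAddCommGroup W] [NormedSpace ℂ W] [FiniteDimensional ℂ W]
  [NormedAddCommGroup V] [NormedSpace ℝ V] [FiniteDimensional ℝ V]

/-- first coordinates of the directions of the rays of the tropical line -/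
def dx : Fin 3 → ℝ := ![-1, 0, 1]

/-- second coordinates -/
def dy : Fin 3 → ℝ := ![0, -1, 1]

/-- the point `t w_k + i y` -/
noncomputable def par (k : Fin 3) : ℝ × ℝ × ℝ →L[ℝ] (ℂ × ℂ × W) × V :=
  LinearMap.toContinuousLinearMap
    { toFun := fun p => (((p.1 * dx k : ℝ) + (p.2.1 : ℝ) * Complex.I,
        (p.1 * dy k : ℝ) + (p.2.2 : ℝ) * Complex.I, 0), 0)
      map_add' := by
        intro p q
        refine Prod.ext (Prod.ext ?_ (Prod.ext ?_ ?_)) ?_
        · simp; ring
        · simp; ring
        · simp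
        · simp
      map_smul' := by
        intro r p
        refine Prod.ext (Prod.ext ?_ (Prod.ext ?_ ?_)) ?_
        · simp; ring
        · simp; ring
        · simp
        · simp }

theorem par_apply (k : Fin 3) (p : ℝ × ℝ × ℝ) : par W V k p =
    (((p.1 * dx k : ℝ) + (p.2.1 : ℝ) * Complex.I,
        (p.1 * dy k : ℝ) + (p.2.2 : ℝ) * Complex.I, 0), 0) := rfl

theorem dxy (k : Fin 3) : dx k ≠ 0 ∨ dy k ≠ 0 := by
  fin_cases k <;> simp [dx, dy]

theorem par_inj (k : Fin 3) : Injective (par W V k) := by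
  intro p q h
  rw [par_apply, par_apply] at h
  have h1 := congrArg (fun x : (ℂ × ℂ × W) × V => x.1.1) h
  have h2 := congrArg (fun x : (ℂ × ℂ × W) × V => x.1.2.1) h
  have a1 := congrArg Complex.re h1
  have a2 := congrArg Complex.im h1
  have b1 := congrArg Complex.re h2
  have b2 := congrArg Complex.im h2
  simp at a1 a2 b1 b2
  refine Prod.ext ?_ (Prod.ext a2 b2)
  rcases dxy k with hk | hk
  · rcases a1 with a1 | a1
    · exact a1
    · exact absurd a1 hk
  · rcases b1 with b1 | b1
    · exact b1
    · exact absurd b1 hk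

/-- the direction `w_k` -/
noncomputable def lw (k : Fin 3) : ℂ × ℂ × W := ((dx k : ℂ), (dy k : ℂ), 0)

theorem lw_ne (k : Fin 3) : lw W k ≠ 0 := by
  intro h
  have h1 : (dx k : ℂ) = 0 := congrArg (fun x : ℂ × ℂ × W => x.1) h
  have h2 : (dy k : ℂ) = 0 := congrArg (fun x : ℂ × ℂ × W => x.2.1) h
  rcases dxy k with hk | hk
  · exact hk (by exact_mod_cast h1)
  · exact hk (by exact_mod_cast h2)

/-- the half space `t > 0` -/
def Pp : Set (ℝ × ℝ × ℝ) := {p | 0 < p.1}

theorem Pp_open : IsOpen Pp := isOpen_lt continuous_const continuous_fst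

noncomputable local instance instMeas : MeasurableSpace ((ℂ × ℂ × W) × V) := borel _
local instance instBor : BorelSpace ((ℂ × ℂ × W) × V) := ⟨rfl⟩

/-- the measure on the piece number `k` -/
noncomputable def mu (k : Fin 3) : Measure ((ℂ × ℂ × W) × V) :=
  Measure.map (par W V k) (volume.restrict Pp)

theorem par_emb (k : Fin 3) : Topology.IsClosedEmbedding (par W V k) :=
  (par W V k).toLinearMap.isClosedEmbedding_of_injective
    (LinearMap.ker_eq_bot.2 (par_inj W V k))

instance (k : Fin 3) : IsFiniteMeasureOnCompacts (mu W V k) := by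
  refine ⟨fun K hK => ?_⟩
  unfold mu
  rw [Measure.map_apply (par W V k).continuous.measurable hK.measurableSet]
  refine lt_of_le_of_lt (Measure.restrict_apply_le _ _) ?_
  exact ((par_emb W V k).isCompact_preimage hK).measure_lt_top

instance (k : Fin 3) : IsLocallyFiniteMeasure (mu W V k) :=
  isLocallyFiniteMeasure_of_isFiniteMeasureOnCompacts

/-- evaluation of alternating forms -/
noncomputable def wedge {E : Type*} [NormedAddCommGroup E] [NormedSpace ℝ E] (v w : E) :
    (E [⋀^Fin 2]→L[ℝ] ℝ) →L[ℝ] ℝ where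
  toFun a := a ![v, w]
  map_add' _ _ := rfl
  map_smul' _ _ := rfl
  cont := by fun_prop

/-- the test functions which are the two-forms -/
abbrev TForm : Type := 𝓓((⊤ : Opens ((ℂ × ℂ × W) × V)), ((ℂ × ℂ × W) × V) [⋀^Fin 2]→L[ℝ] ℝ)

/-- the piece number `k` of the current -/
noncomputable def piece (k : Fin 3) : TForm W V →L[ℝ] ℝ :=
  TestFunction.integralAgainstBilinCLM
    ((ContinuousLinearMap.mul ℝ ℝ).comp (wedge (lw W k, (0 : V)) (Complex.I • lw W k, 0)))
    (mu W V k) (fun _ => (1 : ℝ))

theorem piece_apply (k : Fin 3) (α : TForm W V) :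
    piece W V k α = ∫ p in Pp, α (par W V k p) ![(lw W k, 0), (Complex.I • lw W k, 0)] := by
  unfold piece
  rw [TestFunction.integralAgainstBilinCLM_eq_integral
    ((locallyIntegrable_const (1 : ℝ)).locallyIntegrableOn _)]
  unfold mu
  rw [(par_emb W V k).measurableEmbedding.integral_map]
  refine integral_congr_ae (Eventually.of_forall fun p => ?_)
  show wedge (lw W k, (0 : V)) (Complex.I • lw W k, 0) (α (par W V k p)) * 1 = _
  rw [mul_one]
  rfl

/-- the current, as a continuous linear functional -/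
noncomputable def tropL : TForm W V →L[ℝ] ℝ := ∑ k, piece W V k

/-- the current -/
noncomputable def trop (α : Form (⊤ : Opens ((ℂ × ℂ × W) × V)) 2) : ℝ := tropL W V α

theorem trop_apply (α : Form (⊤ : Opens ((ℂ × ℂ × W) × V)) 2) :
    trop W V α = ∑ k, ∫ p in Pp, α (par W V k p) ![(lw W k, 0), (Complex.I • lw W k, 0)] := by
  have h : trop W V α = (∑ k, piece W V k) α := rfl
  rw [h, sum_apply]
  exact Finset.sum_congr rfl fun k _ => piece_apply W V k α

theorem isCurrent_trop : IsCurrent (trop W V) := ⟨tropL W V, fun _ => rfl⟩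

/-! ### The current is a `C`-current -/

theorem trop_nonneg {α : Form (⊤ : Opens ((ℂ × ℂ × W) × V)) 2}
    (h : ∀ (y : (ℂ × ℂ × W) × V) (l : ℂ × ℂ × W), 0 ≤ α y ![(l, 0), (Complex.I • l, 0)]) :
    0 ≤ trop W V α := by
  rw [trop_apply]
  exact Finset.sum_nonneg fun k _ => integral_nonneg fun p => h _ _

/-- the Dirac current of the bivector `(l, 0) ∧ (i l, 0)` at the point `y` -/
noncomputable def diracL (y : (ℂ × ℂ × W) × V) (l : ℂ × ℂ × W) : TForm W V →L[ℝ] ℝ :=
  { toFun := fun α : TForm W V => wedge (l, (0 : V)) (Complex.I • l, 0) (α y)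
    map_add' := fun α β => (wedge (l, (0 : V)) (Complex.I • l, 0)).map_add (α y) (β y)
    map_smul' := fun r α => (wedge (l, (0 : V)) (Complex.I • l, 0)).map_smul r (α y)
    cont := (wedge (l, (0 : V)) (Complex.I • l, 0)).continuous.comp (continuous_eval_const y) }

theorem mem_weak : StrongDual.toWeakDual (tropL W V) ∈ closure (PointedCone.hull ℝ
    {T : WeakDual ℝ (TForm W V) | ∃ y l, T = StrongDual.toWeakDual (diracL W V y l)} :
    Set (WeakDual ℝ (TForm W V))) := by
  set S : Set (WeakDual ℝ (TForm W V)) :=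
    {T | ∃ y l, T = StrongDual.toWeakDual (diracL W V y l)} with hS
  by_contra hcon
  have : LocallyConvexSpace ℝ (WeakDual ℝ (TForm W V)) :=
    inferInstanceAs (LocallyConvexSpace ℝ (WeakBilin _))
  obtain ⟨f, hf1, hf2⟩ := ProperCone.hyperplane_separation_point
    (Submodule.closure (PointedCone.hull ℝ S)) hcon
  obtain ⟨α, hα⟩ := LinearMap.dualEmbedding_surjective _ f
  have hfα : ∀ T : WeakDual ℝ (TForm W V), f T = T α := by
    intro T
    rw [← hα]
    rfl
  rw [hfα] at hf2
  refine absurd hf2 (not_lt.2 (trop_nonneg W V (α := α) fun y l => ?_))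
  have h1 : StrongDual.toWeakDual (diracL W V y l) ∈ S := ⟨y, l, rfl⟩
  have h2 := hf1 _ (subset_closure (PointedCone.subset_hull h1))
  rw [hfα] at h2
  exact h2

/-- a functional in the weak dual as a function -/
noncomputable def toFn : WeakDual ℝ (TForm W V) →ₗ[ℝ]
    (Form (⊤ : Opens ((ℂ × ℂ × W) × V)) 2 → ℝ) where
  toFun T α := T α
  map_add' _ _ := rfl
  map_smul' _ _ := rfl

theorem toFn_cont : Continuous (toFn W V) :=
  continuous_pi fun α => WeakDual.eval_continuous (𝕜 := ℝ) (E := TForm W V) α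

theorem isCCurrent_trop : IsCCurrent (L := ℂ × ℂ × W) (V := V) (trop W V) := by
  refine ⟨isCurrent_trop W V, ?_⟩
  have h1 := image_closure_subset_closure_image (toFn_cont W V) (mem_image_of_mem _ (mem_weak W V))
  refine closure_mono ?_ h1
  rintro _ ⟨T, hT, rfl⟩
  induction hT using Submodule.span_induction with
  | mem x h =>
    obtain ⟨y, l, rfl⟩ := h
    refine PointedCone.subset_hull ⟨y, trivial, fun a => onLine a l, ?_, fun α => rfl⟩
    exact subset_closure (PointedCone.subset_hull ⟨l, fun a => rfl⟩)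
  | zero =>
    rw [map_zero]
    exact Submodule.zero_mem _
  | add x y _ _ hx hy =>
    rw [map_add]
    exact Submodule.add_mem _ hx hy
  | smul a x _ hx => exact Submodule.smul_mem _ a hx

end Pool.Agent.K4H30.LC
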