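import Pool.Agent.K4H30.LC.Cur

/-! The tropical current is a cycle. -/

set_option autoImplicit false
set_option linter.unusedSectionVars false

namespace Pool.Agent.K4H30.LC

open Set Function Filter TopologicalSpace MeasureTheory
open scoped Manifold Topology Distributions ContDiff

theorem restrict_Pp : (volume : Measure (ℝ × ℝ × ℝ)).restrict Pp =
    ((volume : Measure ℝ).restrict (Ioi 0)).prod (volume : Measure (ℝ × ℝ)) := by
  have h : Pp = Ioi (0 : ℝ) ×ˢ (univ : Set (ℝ × ℝ)) := by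
    ext p
    simp [Pp]
  rw [h, Measure.volume_eq_prod, ← Measure.prod_restrict, Measure.restrict_univ]

theorem fderiv_cont {F : ℝ × ℝ × ℝ → ℝ} (hF : ContDiff ℝ 1 F) (v : ℝ × ℝ × ℝ) :
    Continuous (fun p => fderiv ℝ F p v) :=
  (hF.continuous_fderiv one_ne_zero).clm_apply continuous_const

theorem fderiv_supp {F : ℝ × ℝ × ℝ → ℝ} (hc : HasCompactSupport F) (v : ℝ × ℝ × ℝ) :
    HasCompactSupport (fun p => fderiv ℝ F p v) :=
  (hc.fderiv ℝ).comp_left (g := fun l : (ℝ × ℝ × ℝ) →L[ℝ] ℝ => l v) rfl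

theorem slice_compact {X : Type*} [TopologicalSpace X] {F : ℝ × ℝ × ℝ → ℝ}
    (hc : HasCompactSupport F) (g : X → ℝ × ℝ × ℝ) (r : ℝ × ℝ × ℝ → X) (hr : LeftInverse r g)
    (hrc : Continuous r) (hgc : Continuous g) : HasCompactSupport (fun s => F (g s)) :=
  hc.comp_isClosedEmbedding (hr.isClosedEmbedding hrc hgc)

theorem hasDeriv_slice {F : ℝ × ℝ × ℝ → ℝ} (hF : ContDiff ℝ 1 F) {g : ℝ → ℝ × ℝ × ℝ}
    {v : ℝ × ℝ × ℝ} {s : ℝ} (hg : HasDerivAt g v s) :
    HasDerivAt (fun s => F (g s)) (fderiv ℝ F (g s) v) s :=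
  ((hF.differentiable one_ne_zero (g s)).hasFDerivAt).comp_hasDerivAt s hg

/-- the integral of a derivative in the first variable -/
theorem int_t {F : ℝ × ℝ × ℝ → ℝ} (hF : ContDiff ℝ 1 F) (hc : HasCompactSupport F) :
    ∫ p in Pp, fderiv ℝ F p (1, 0, 0) = - ∫ y : ℝ × ℝ, F (0, y) := by
  have hint : Integrable (fun p => fderiv ℝ F p (1, 0, 0))
      (((volume : Measure ℝ).restrict (Ioi 0)).prod (volume : Measure (ℝ × ℝ))) := by
    rw [← restrict_Pp]
    exact ((fderiv_cont hF _).integrable_of_hasCompactSupport (fderiv_supp hc _)).restrict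
  rw [restrict_Pp, integral_prod_symm _ hint, ← integral_neg]
  refine integral_congr_ae (Eventually.of_forall fun y => ?_)
  have hg : ∀ s : ℝ, HasDerivAt (fun s : ℝ => ((s, y) : ℝ × ℝ × ℝ)) (1, 0, 0) s := fun s =>
    (hasDerivAt_id s).prodMk (hasDerivAt_const s y)
  have h1 : ∀ s : ℝ, deriv (fun s : ℝ => F (s, y)) s = fderiv ℝ F (s, y) (1, 0, 0) := fun s =>
    (hasDeriv_slice hF (hg s)).deriv
  have h2 : ContDiff ℝ 1 (fun s : ℝ => F (s, y)) :=
    hF.comp (contDiff_id.prodMk contDiff_const)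
  have h3 : HasCompactSupport (fun s : ℝ => F (s, y)) :=
    slice_compact hc (fun s : ℝ => ((s, y) : ℝ × ℝ × ℝ)) (fun p => p.1) (fun _ => rfl)
      continuous_fst (by fun_prop)
  have h4 := h3.integral_Ioi_deriv_eq h2 0
  simp only [h1] at h4
  exact h4

theorem int_slice {F : ℝ × ℝ × ℝ → ℝ} (hF : ContDiff ℝ 1 F) (hc : HasCompactSupport F)
    (g : ℝ → ℝ × ℝ × ℝ) (r : ℝ × ℝ × ℝ → ℝ) (hr : LeftInverse r g)
    (hrc : Continuous r) (hgc : Continuous g) (v : ℝ × ℝ × ℝ) (hg : ∀ s, HasDerivAt g v s) :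
    ∫ s, fderiv ℝ F (g s) v = 0 := by
  refine integral_eq_zero_of_hasDerivAt_of_integrable (f := fun s => F (g s))
    (fun s => hasDeriv_slice hF (hg s)) ?_ ?_
  · exact ((fderiv_cont hF v).comp hgc).integrable_of_hasCompactSupport
      (slice_compact (fderiv_supp hc v) g r hr hrc hgc)
  · exact (hF.continuous.comp hgc).integrable_of_hasCompactSupport
      (slice_compact hc g r hr hrc hgc)

/-- the integral of a derivative in the second or third variable -/
theorem int_y {F : ℝ × ℝ × ℝ → ℝ} (hF : ContDiff ℝ 1 F) (hc : HasCompactSupport F) (a b : ℝ) :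
    ∫ p in Pp, fderiv ℝ F p (0, a, b) = 0 := by
  have hint : ∀ v : ℝ × ℝ × ℝ, Integrable (fun p => fderiv ℝ F p v)
      (((volume : Measure ℝ).restrict (Ioi 0)).prod (volume : Measure (ℝ × ℝ))) := by
    intro v
    rw [← restrict_Pp]
    exact ((fderiv_cont hF _).integrable_of_hasCompactSupport (fderiv_supp hc _)).restrict
  have hint2 : ∀ (v : ℝ × ℝ × ℝ) (t : ℝ), Integrable (fun y : ℝ × ℝ => fderiv ℝ F (t, y) v)
      ((volume : Measure ℝ).prod (volume : Measure ℝ)) := by
    intro v t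
    rw [← Measure.volume_eq_prod]
    exact ((fderiv_cont hF v).comp (by fun_prop)).integrable_of_hasCompactSupport
      (slice_compact (fderiv_supp hc v) (fun y : ℝ × ℝ => ((t, y) : ℝ × ℝ × ℝ)) (fun p => p.2)
        (fun _ => rfl) continuous_snd (by fun_prop))
  have h1 : ∫ p in Pp, fderiv ℝ F p (0, 1, 0) = 0 := by
    rw [restrict_Pp, integral_prod _ (hint _)]
    have : ∀ t : ℝ, ∫ y : ℝ × ℝ, fderiv ℝ F (t, y) (0, 1, 0) = 0 := by
      intro t
      rw [Measure.volume_eq_prod, integral_prod_symm _ (hint2 _ t)]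
      have : ∀ y2 : ℝ, ∫ y1 : ℝ, fderiv ℝ F (t, y1, y2) (0, 1, 0) = 0 := by
        intro y2
        exact int_slice hF hc (fun y1 => (t, y1, y2)) (fun p => p.2.1) (fun _ => rfl)
          (by fun_prop) (by fun_prop) (0, 1, 0)
          (fun s => (hasDerivAt_const s t).prodMk ((hasDerivAt_id s).prodMk (hasDerivAt_const s y2)))
      simp [this]
    simp [this]
  have h2 : ∫ p in Pp, fderiv ℝ F p (0, 0, 1) = 0 := by
    rw [restrict_Pp, integral_prod _ (hint _)]
    have : ∀ t : ℝ, ∫ y : ℝ × ℝ, fderiv ℝ F (t, y) (0, 0, 1) = 0 := by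
      intro t
      rw [Measure.volume_eq_prod, integral_prod _ (hint2 _ t)]
      have : ∀ y1 : ℝ, ∫ y2 : ℝ, fderiv ℝ F (t, y1, y2) (0, 0, 1) = 0 := by
        intro y1
        exact int_slice hF hc (fun y2 => (t, y1, y2)) (fun p => p.2.2) (fun _ => rfl)
          (by fun_prop) (by fun_prop) (0, 0, 1)
          (fun s => (hasDerivAt_const s t).prodMk ((hasDerivAt_const s y1).prodMk (hasDerivAt_id s)))
      simp [this]
    simp [this]
  have h3 : ∀ p : ℝ × ℝ × ℝ, fderiv ℝ F p (0, a, b) =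
      a * fderiv ℝ F p (0, 1, 0) + b * fderiv ℝ F p (0, 0, 1) := by
    intro p
    have : ((0, a, b) : ℝ × ℝ × ℝ) = a • (0, 1, 0) + b • (0, 0, 1) := by simp
    rw [this, map_add, map_smul, map_smul, smul_eq_mul, smul_eq_mul]
  simp only [h3]
  rw [restrict_Pp] at h1 h2 ⊢
  rw [integral_add ((hint _).const_mul a) ((hint _).const_mul b), integral_const_mul,
    integral_const_mul, h1, h2, mul_zero, mul_zero, add_zero]

variable (W V : Type) [NormedAddCommGroup W] [NormedSpace ℂ W] [FiniteDimensional ℂ W]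
  [NormedAddCommGroup V] [NormedSpace ℝ V] [FiniteDimensional ℝ V]

theorem par_t (k : Fin 3) : par W V k (1, 0, 0) = (lw W k, 0) := by
  rw [par_apply]
  simp [lw]

theorem par_y (k : Fin 3) : par W V k (0, dx k, dy k) = (Complex.I • lw W k, 0) := by
  rw [par_apply]
  simp [lw, mul_comm]

theorem par_zero (k : Fin 3) (y : ℝ × ℝ) : par W V k (0, y) =
    (((y.1 : ℝ) * Complex.I, (y.2 : ℝ) * Complex.I, 0), 0) := by
  rw [par_apply]
  simp

theorem lw_sum : ∑ k, ((Complex.I • lw W k, 0) : (ℂ × ℂ × W) × V) = 0 := by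
  rw [Fin.sum_univ_three]
  refine Prod.ext (Prod.ext ?_ (Prod.ext ?_ ?_)) ?_ <;> simp [lw, dx, dy]

/-- restriction of a coefficient of a one-form to the piece number `k` -/
theorem coef_fderiv (β : Form (⊤ : Opens ((ℂ × ℂ × W) × V)) 1) (k : Fin 3)
    (m : Fin 1 → (ℂ × ℂ × W) × V) (p v : ℝ × ℝ × ℝ) :
    fderiv ℝ (fun p => β (par W V k p) m) p v =
      fderiv ℝ (fun x => β x m) (par W V k p) (par W V k v) := by
  have h1 : DifferentiableAt ℝ (fun x => β x m) (par W V k p) := by
    have hd : Differentiable ℝ β := (TestFunction.contDiff β).differentiable (by simp)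
    exact (hd (par W V k p)).continuousAlternatingMap_apply_const m
  have h2 := h1.hasFDerivAt.comp p ((par W V k).hasFDerivAt (x := p))
  have h3 : (fun p => β (par W V k p) m) = (fun x => β x m) ∘ (par W V k) := rfl
  rw [h3, h2.fderiv]
  rfl

theorem coef_contDiff (β : Form (⊤ : Opens ((ℂ × ℂ × W) × V)) 1) (k : Fin 3)
    (m : Fin 1 → (ℂ × ℂ × W) × V) : ContDiff ℝ 1 (fun p => β (par W V k p) m) := by
  let ev : (((ℂ × ℂ × W) × V) [⋀^Fin 1]→L[ℝ] ℝ) →L[ℝ] ℝ :=
    { toFun := fun a => a m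
      map_add' := fun _ _ => rfl
      map_smul' := fun _ _ => rfl
      cont := by fun_prop }
  have h : ContDiff ℝ 1 β := (TestFunction.contDiff β).of_le (by exact_mod_cast le_top)
  exact ev.contDiff.comp (h.comp (par W V k).contDiff)

theorem coef_supp (β : Form (⊤ : Opens ((ℂ × ℂ × W) × V)) 1) (k : Fin 3)
    (m : Fin 1 → (ℂ × ℂ × W) × V) : HasCompactSupport (fun p => β (par W V k p) m) := by
  have h1 : HasCompactSupport (fun p => β (par W V k p)) :=
    (TestFunction.hasCompactSupport β).comp_isClosedEmbedding (par_emb W V k)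
  exact h1.comp_left (g := fun a : ((ℂ × ℂ × W) × V) [⋀^Fin 1]→L[ℝ] ℝ => a m) rfl

theorem isCycle_trop : IsCycle (trop W V) := by
  intro β
  rw [trop_apply]
  have key : ∀ k : Fin 3, ∫ p in Pp, (d β) (par W V k p) ![(lw W k, 0), (Complex.I • lw W k, 0)] =
      - ∫ y : ℝ × ℝ, β (((y.1 : ℝ) * Complex.I, (y.2 : ℝ) * Complex.I, 0), 0)
        ![(Complex.I • lw W k, 0)] := by
    intro k
    have h0 : ∀ p, (d β) (par W V k p) ![(lw W k, 0), (Complex.I • lw W k, 0)] =
        fderiv ℝ (fun p => β (par W V k p) ![(Complex.I • lw W k, 0)]) p (1, 0, 0) -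
        fderiv ℝ (fun p => β (par W V k p) ![(lw W k, 0)]) p (0, dx k, dy k) := by
      intro p
      rw [coef_fderiv, coef_fderiv, par_t, par_y]
      have h1 : (d β) (par W V k p) = extDeriv β (par W V k p) := rfl
      have hd : Differentiable ℝ β := (TestFunction.contDiff β).differentiable (by simp)
      rw [h1, extDeriv_apply (hd (par W V k p)), Fin.sum_univ_two]
      have e0 : (Fin.removeNth 0 ![((lw W k, 0) : (ℂ × ℂ × W) × V), (Complex.I • lw W k, 0)]) =
          ![(Complex.I • lw W k, 0)] := by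
        funext i
        fin_cases i
        rfl
      have e1 : (Fin.removeNth 1 ![((lw W k, 0) : (ℂ × ℂ × W) × V), (Complex.I • lw W k, 0)]) =
          ![(lw W k, 0)] := by
        funext i
        fin_cases i
        rfl
      rw [e0, e1]
      simp [sub_eq_add_neg]
    have hB := coef_contDiff W V β k ![(Complex.I • lw W k, 0)]
    have hBs := coef_supp W V β k ![(Complex.I • lw W k, 0)]
    have hA := coef_contDiff W V β k ![(lw W k, 0)]
    have hAs := coef_supp W V β k ![(lw W k, 0)]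
    simp only [h0]
    rw [integral_sub
      ((fderiv_cont hB _).integrable_of_hasCompactSupport (fderiv_supp hBs _)).restrict
      ((fderiv_cont hA _).integrable_of_hasCompactSupport (fderiv_supp hAs _)).restrict,
      int_t hB hBs, int_y hA hAs, sub_zero]
    simp only [par_zero]
  have hint : ∀ k : Fin 3, Integrable (fun y : ℝ × ℝ =>
      β (((y.1 : ℝ) * Complex.I, (y.2 : ℝ) * Complex.I, 0), 0) ![(Complex.I • lw W k, 0)]) := by
    intro k
    have hB := coef_contDiff W V β k ![(Complex.I • lw W k, 0)]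
    have hBs := coef_supp W V β k ![(Complex.I • lw W k, 0)]
    have h1 := (hB.continuous.comp (g := fun p => β (par W V k p) ![(Complex.I • lw W k, 0)])
      (f := fun y : ℝ × ℝ => ((0, y) : ℝ × ℝ × ℝ)) (by fun_prop)).integrable_of_hasCompactSupport
      (μ := volume)
      (slice_compact hBs (fun y : ℝ × ℝ => ((0, y) : ℝ × ℝ × ℝ)) (fun p => p.2)
        (fun _ => rfl) continuous_snd (by fun_prop))
    simpa only [Function.comp_def, par_zero] using h1
  simp only [key]
  rw [Finset.sum_neg_distrib, ← integral_finsetSum _ (fun k _ => hint k), neg_eq_zero]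
  have h2 : ∀ (a : ((ℂ × ℂ × W) × V) [⋀^Fin 1]→L[ℝ] ℝ),
      ∑ k, a ![(Complex.I • lw W k, 0)] = 0 := by
    intro a
    let f : ((ℂ × ℂ × W) × V) →+ ℝ :=
      { toFun := fun x => a ![x]
        map_zero' := a.map_coord_zero 0 rfl
        map_add' := fun x y => a.vecCons_add _ x y }
    have h3 := map_sum f (fun k => ((Complex.I • lw W k, 0) : (ℂ × ℂ × W) × V)) Finset.univ
    rw [lw_sum, map_zero] at h3
    exact h3.symm
  simp only [h2, integral_zero]

theorem isCCycle_trop : IsCCycle (L := ℂ × ℂ × W) (V := V) (trop W V) :=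
  ⟨isCCurrent_trop W V, isCycle_trop W V⟩

end Pool.Agent.K4H30.LC
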