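import Mathlib

/-!
# Currents, the structure cone of a leafwise complex structure, pseudoholomorphic curves

The foliated manifolds considered here are the products `M = L × V`, where `L` is a finite
dimensional complex vector space and `V` a finite dimensional real vector space, with the leaves
`L × {s}`, `s ∈ V`, and the leafwise complex structure `J (l, 0) = (i l, 0)`.  For `V = 0` there is
only one leaf, the complex manifold `L`.
-/

set_option autoImplicit false

namespace Pool.Agent.K4H30.LC

open Set Function TopologicalSpace MeasureTheory
open scoped Distributions Manifold Topology ContDiff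

/-! ### Forms and currents -/

/-- The functional `c` is linear and continuous. -/
def IsContLinear {X : Type*} [AddCommGroup X] [Module ℝ X] [TopologicalSpace X] (c : X → ℝ) : Prop :=
  ∃ T : X →L[ℝ] ℝ, ∀ x, c x = T x

section Currents

variable {E : Type*} [NormedAddCommGroup E] [NormedSpace ℝ E]

/-- The space `Ω^p_c(U)` of the smooth `p`-forms with compact support in the open set `U` (Mathlib's
test functions on `U` with values in the alternating forms). -/
def Form (U : Opens E) (p : ℕ) : Type _ := 𝓓(U, E [⋀^Fin p]→L[ℝ] ℝ)

instance (U : Opens E) (p : ℕ) : FunLike (Form U p) E (E [⋀^Fin p]→L[ℝ] ℝ) :=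
  inferInstanceAs (FunLike 𝓓(U, E [⋀^Fin p]→L[ℝ] ℝ) E (E [⋀^Fin p]→L[ℝ] ℝ))

/-- The `p`-currents on `U`: the continuous linear functionals on `Ω^p_c(U)`.  (Mathlib's topology on
the test functions is the usual one, the inductive limit of the `C^∞` topologies of the spaces of
the forms with support in a given compact subset of `U`.) -/
def IsCurrent {U : Opens E} {p : ℕ} (c : Form U p → ℝ) : Prop := IsContLinear (X := 𝓓(U, E [⋀^Fin p]→L[ℝ] ℝ)) c

theorem d_smooth {U : Opens E} {p : ℕ} (β : Form U p) : ContDiff ℝ ∞ (extDeriv β) := by
  have h : ContDiff ℝ ∞ (fderiv ℝ β) :=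
    (TestFunction.contDiff β).fderiv_right (m := ∞) (by simp)
  exact (ContinuousAlternatingMap.alternatizeUncurryFinCLM ℝ E ℝ).contDiff.comp h

theorem d_compact {U : Opens E} {p : ℕ} (β : Form U p) : HasCompactSupport (extDeriv β) :=
  ((TestFunction.hasCompactSupport β).fderiv ℝ).comp_left
    (map_zero (ContinuousAlternatingMap.alternatizeUncurryFinCLM ℝ E ℝ))

theorem d_support {U : Opens E} {p : ℕ} (β : Form U p) : tsupport (extDeriv β) ⊆ U :=
  (tsupport_comp_subset
    (map_zero (ContinuousAlternatingMap.alternatizeUncurryFinCLM ℝ E ℝ)) (fderiv ℝ β)).trans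
    ((tsupport_fderiv_subset ℝ).trans (TestFunction.tsupport_subset β))

/-- The exterior derivative of a form with compact support. -/
noncomputable def d {U : Opens E} {p : ℕ} (β : Form U p) : Form U (p + 1) :=
  TestFunction.mk (extDeriv β) (d_smooth β) (d_compact β) (d_support β)

/-- A form with compact support in `U`, considered as a form on the whole space. -/
noncomputable def extend {U : Opens E} {p : ℕ} (α : Form U p) : Form (⊤ : Opens E) p :=
  TestFunction.mk α (TestFunction.contDiff α) (TestFunction.hasCompactSupport α) (subset_univ _)

/-- A current `c` of positive degree is a cycle if its boundary `β ↦ c(dβ)` is zero. -/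
def IsCycle {U : Opens E} {p : ℕ} (c : Form U (p + 1) → ℝ) : Prop :=
  ∀ β : Form U p, c (d β) = 0

end Currents

variable {L V : Type*} [NormedAddCommGroup L] [NormedSpace ℂ L] [NormedAddCommGroup V]
  [NormedSpace ℝ V]

/-! ### The structure cone -/

/-- The value `a(X, J X)` of the alternating form `a` on the bivector `X ∧ J X`, where the vector
`X = (X, 0)` is tangent to the leaves and `J X = (i X, 0)`. -/
noncomputable def onLine (a : (L × V) [⋀^Fin 2]→L[ℝ] ℝ) (X : L) : ℝ := a ![(X, 0), (Complex.I • X, 0)]

/-- The closed convex cone (with `0`) generated by a set of functionals, in the topology of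
pointwise convergence. -/
def closedCone {X : Type*} (S : Set (X → ℝ)) : Set (X → ℝ) := closure (PointedCone.hull ℝ S)

variable (L V) in
/-- The structure cone of `J` (the same at all points of `L × V`): the closed convex cone generated
by the bivectors `X ∧ J X`, `X` tangent to the leaves.  A bivector is considered as the linear
functional which it defines on the alternating forms. -/
def structureCone : Set (((L × V) [⋀^Fin 2]→L[ℝ] ℝ) → ℝ) :=
  closedCone {b | ∃ X : L, ∀ a, b a = onLine a X}

/-- `C`-currents: the elements of the closed convex cone generated by the Dirac currents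
`α ↦ b(α_y)` of the elements `b` of the structure cone.  The topology is the weak topology, that is
pointwise convergence on `Ω²_c(U)`.  (`Ω²_c(U)` is reflexive, so that the closed convex cones of
currents are the same as for the topology of uniform convergence on bounded sets.) -/
def IsCCurrent {U : Opens (L × V)} (c : Form U 2 → ℝ) : Prop :=
  IsCurrent c ∧ c ∈ closedCone {T | ∃ y ∈ U, ∃ b ∈ structureCone L V, ∀ α, T α = b (α y)}

/-- `C`-cycles: `C`-currents which are cycles. -/
def IsCCycle {U : Opens (L × V)} (c : Form U 2 → ℝ) : Prop := IsCCurrent c ∧ IsCycle c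

/-! ### Pseudoholomorphic curves -/

/-- The differential of the map `u` vanishes at the point `p`, that is the derivative of `u` in a
chart at `p` vanishes. -/
def DiffZero {S : Type} [TopologicalSpace S] [ChartedSpace ℂ S] (u : S → L) (p : S) : Prop :=
  deriv (fun w => u ((chartAt ℂ p).symm w)) (chartAt ℂ p p) = 0

/-- Holomorphic maps from a Riemann surface to `L`. -/
def Holomorphic {S : Type} [TopologicalSpace S] [ChartedSpace ℂ S] (u : S → L) : Prop :=
  MDifferentiable 𝓘(ℂ) 𝓘(ℂ, L) u

/-- A pseudoholomorphic curve in the open set `U ⊆ L × V`: a proper, somewhere injective map from a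
connected Riemann surface `S` to `U`, with image in a leaf `L × {s}`, which is holomorphic (that is
`du ∘ j = J ∘ du`). -/
structure Curve (U : Opens (L × V)) where
  /-- the Riemann surface -/
  S : Type
  [topologicalSpace : TopologicalSpace S]
  [t2Space : T2Space S]
  [connectedSpace : ConnectedSpace S]
  [chartedSpace : ChartedSpace ℂ S]
  [isManifold : IsManifold 𝓘(ℂ) 1 S]
  /-- the component of the map in `L` -/
  u : S → L
  /-- the component in `V`, which is constant -/
  s : V
  holomorphic : Holomorphic u
  mem : ∀ p, (u p, s) ∈ U
  proper : IsProperMap (fun p => (⟨(u p, s), mem p⟩ : U))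
  somewhere_injective : ∃ p, ¬ DiffZero u p ∧ ∀ p', u p' = u p → p' = p

attribute [instance] Curve.topologicalSpace Curve.t2Space Curve.connectedSpace Curve.chartedSpace
  Curve.isManifold

/-- The coefficient `f` of the pull-back `f dx ∧ dy` of the form `α` by the curve in the chart
`e`: `f(z) = α(X, i X)` with the complex derivative `X` of `u` in the chart (the image of
`∂/∂x`). -/
noncomputable def Curve.coeff {U : Opens (L × V)} (C : Curve U) (α : Form U 2)
    (e : OpenPartialHomeomorph C.S ℂ) (z : ℂ) : ℝ :=
  onLine (α (C.u (e.symm z), C.s)) (deriv (fun w => C.u (e.symm w)) z)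

/-- `I` is the integral of the pull-back of the form `α` over the Riemann surface, calculated with
a partition of unity `ρ` (of the compact preimage of the support of `α`) which is subordinate to a
family of charts `e`. -/
def Curve.IsIntegral {U : Opens (L × V)} (C : Curve U) (α : Form U 2) (I : ℝ) : Prop :=
  ∃ (n : ℕ) (e : Fin n → OpenPartialHomeomorph C.S ℂ) (ρ : Fin n → C.S → ℝ),
    (∀ i, e i ∈ atlas ℂ C.S) ∧ (∀ i, Continuous (ρ i)) ∧ (∀ i p, 0 ≤ ρ i p) ∧
    (∀ i, HasCompactSupport (ρ i)) ∧ (∀ i, tsupport (ρ i) ⊆ (e i).source) ∧
    (∀ p, (C.u p, C.s) ∈ tsupport α → ∑ i, ρ i p = 1) ∧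
    I = ∑ i, ∫ z in (e i).target, ρ i ((e i).symm z) * C.coeff α (e i) z

/-- The set `P_U` of the pseudoholomorphic curves in `U`, considered as currents on `U`. -/
def curves (U : Opens (L × V)) : Set (Form U 2 → ℝ) :=
  {T | ∃ C : Curve U, ∀ α : Form U 2, C.IsIntegral α (T α)}

/-- The restriction to `U` of the current `c` is a superposition of pseudoholomorphic curves, that
is `c(α) = ∫ T(α) dν(T)` for all forms `α` with compact support in `U`, with a non-negative measure
`ν` on `P_U`.  (The measure may be defined on an arbitrary `σ`-algebra on `P_U`, for instance on the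
Borel sets of any topology, provided that the functions `T ↦ T(α)` are integrable.) -/
def IsSuperpositionOn (c : Form (⊤ : Opens (L × V)) 2 → ℝ) (U : Opens (L × V)) : Prop :=
  ∃ (_ : MeasurableSpace (curves U)) (ν : Measure (curves U)),
    ∀ α : Form U 2, Integrable (fun T : curves U => T.1 α) ν ∧
      c (extend α) = ∫ T : curves U, T.1 α ∂ν

variable (L V) in
/-- The assertion of Q1 for the foliated manifold `M = L × V` with the leaves `L × {s}` and the
leafwise complex structure `J (l, 0) = (i l, 0)`: for every `C`-cycle `c` on `M` and every point `x`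
there is an open neighbourhood `U` of `x` such that the restriction of `c` to `U` is a non-negative
superposition of pseudoholomorphic curves in `U`. -/
def LocalRepresentation : Prop :=
  ∀ c : Form (⊤ : Opens (L × V)) 2 → ℝ, IsCCycle c → ∀ x : L × V,
    ∃ U : Opens (L × V), x ∈ U ∧ IsSuperpositionOn c U

end Pool.Agent.K4H30.LC
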