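import Pool.Agent.K4H30.LC.Cyc

/-! The tropical current is not a superposition of pseudoholomorphic curves near the origin. -/

set_option autoImplicit false
set_option linter.unusedSectionVars false

namespace Pool.Agent.K4H30.LC

open Set Function Filter TopologicalSpace MeasureTheory
open scoped Manifold Topology Distributions ContDiff

variable (W V : Type) [NormedAddCommGroup W] [NormedSpace ℂ W] [FiniteDimensional ℂ W]
  [NormedAddCommGroup V] [NormedSpace ℝ V] [FiniteDimensional ℝ V]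

/-- the support of the current -/
def ZZ : Set ((ℂ × ℂ × W) × V) := {x | x.2 = 0 ∧ x.1.2.2 = 0 ∧ Trop x.1.1.re x.1.2.1.re}

theorem ZZ_closed : IsClosed (ZZ W V) := by
  have c1 : Continuous (fun x : (ℂ × ℂ × W) × V => x.1.1.re) := by fun_prop
  have c2 : Continuous (fun x : (ℂ × ℂ × W) × V => x.1.2.1.re) := by fun_prop
  refine (isClosed_eq continuous_snd continuous_const).inter
    ((isClosed_eq (by fun_prop) continuous_const).inter ?_)
  refine IsClosed.union ?_ (IsClosed.union ?_ ?_)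
  · exact (isClosed_eq c2 continuous_const).inter (isClosed_le c1 continuous_const)
  · exact (isClosed_eq c1 continuous_const).inter (isClosed_le c2 continuous_const)
  · exact (isClosed_eq c1 c2).inter (isClosed_le continuous_const c1)

theorem par_mem (k : Fin 3) {p : ℝ × ℝ × ℝ} (hp : p ∈ Pp) : par W V k p ∈ ZZ W V := by
  have hp' : 0 < p.1 := hp
  rw [par_apply]
  refine ⟨rfl, rfl, ?_⟩
  unfold Trop
  fin_cases k
  · left
    simp [dx, dy, hp'.le]
  · right; left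
    simp [dx, dy, hp'.le]
  · right; right
    simp [dx, dy, hp'.le]

theorem trop_zero (a : ((ℂ × ℂ × W) × V) [⋀^Fin 2]→L[ℝ] ℝ) (ψ : (ℂ × ℂ × W) × V → ℝ)
    {U : Opens ((ℂ × ℂ × W) × V)}
    (h1 : ContDiff ℝ ∞ ψ) (h2 : HasCompactSupport ψ) (h3 : tsupport ψ ⊆ U)
    (h : ∀ x ∈ ZZ W V, ψ x = 0) : trop W V (extend (mkForm (U := U) a ψ h1 h2 h3)) = 0 := by
  rw [trop_apply]
  refine Finset.sum_eq_zero fun k _ => ?_
  refine setIntegral_eq_zero_of_forall_eq_zero fun p hp => ?_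
  show ψ (par W V k p) * _ = 0
  rw [h _ (par_mem W V k hp), zero_mul]

theorem trop_pos {ι : Type} [Fintype ι] (l : ι → (ℂ × ℂ × W) →L[ℂ] ℂ)
    (hl : ∀ x, (∀ j, l j x = 0) → x = 0) (ψ : (ℂ × ℂ × W) × V → ℝ) (h0 : ∀ x, 0 ≤ ψ x)
    {U : Opens ((ℂ × ℂ × W) × V)}
    (h1 : ContDiff ℝ ∞ ψ) (h2 : HasCompactSupport ψ) (h3 : tsupport ψ ⊆ U) (h4 : 0 < ψ 0) :
    0 < trop W V (extend (mkForm (U := U) (kform V l) ψ h1 h2 h3)) := by
  rw [trop_apply]
  have hpos : ∀ x : (ℂ × ℂ × W), x ≠ 0 → 0 < ∑ j, ‖l j x‖ ^ 2 := by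
    intro x hx
    obtain ⟨j, hj⟩ : ∃ j, l j x ≠ 0 := by
      by_contra hcon
      push Not at hcon
      exact hx (hl x hcon)
    exact Finset.sum_pos' (fun j _ => by positivity) ⟨j, Finset.mem_univ j, by positivity⟩
  have hval : ∀ (k : Fin 3) (p : ℝ × ℝ × ℝ),
      (extend (mkForm (U := U) (kform V l) ψ h1 h2 h3) :
        Form (⊤ : Opens ((ℂ × ℂ × W) × V)) 2) (par W V k p)
        ![(lw W k, 0), (Complex.I • lw W k, 0)] =
      ψ (par W V k p) * ∑ j, ‖l j (lw W k)‖ ^ 2 := by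
    intro k p
    rw [← kform_apply (V := V)]
    rfl
  simp only [hval]
  refine Finset.sum_pos' (fun k _ => ?_) ⟨0, Finset.mem_univ _, ?_⟩
  · exact integral_nonneg fun p => mul_nonneg (h0 _) (Finset.sum_nonneg fun j _ => by positivity)
  · rw [integral_mul_const]
    refine mul_pos ?_ (hpos _ (lw_ne W 0))
    have hc : Continuous (fun p => ψ (par W V 0 p)) := h1.continuous.comp (par W V 0).continuous
    have hs : HasCompactSupport (fun p => ψ (par W V 0 p)) :=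
      h2.comp_isClosedEmbedding (par_emb W V 0)
    rw [setIntegral_pos_iff_support_of_nonneg_ae (Eventually.of_forall fun p => h0 _)
      (hc.integrable_of_hasCompactSupport hs).integrableOn]
    have hopen : IsOpen ({p | 0 < ψ (par W V 0 p)} ∩ Pp) :=
      (isOpen_lt continuous_const hc).inter Pp_open
    have hne : ({p | 0 < ψ (par W V 0 p)} ∩ Pp).Nonempty := by
      have h5 : Tendsto (fun t : ℝ => ((t, 0, 0) : ℝ × ℝ × ℝ)) (𝓝[>] 0) (𝓝 (0, 0, 0)) := by
        have : Continuous (fun t : ℝ => ((t, 0, 0) : ℝ × ℝ × ℝ)) := by fun_prop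
        exact (this.tendsto 0).mono_left nhdsWithin_le_nhds
      have h6 : ∀ᶠ p in 𝓝 ((0, 0, 0) : ℝ × ℝ × ℝ), 0 < ψ (par W V 0 p) := by
        refine (isOpen_lt continuous_const hc).mem_nhds ?_
        show 0 < ψ (par W V 0 (0, 0, 0))
        have : par W V 0 (0, 0, 0) = 0 := map_zero _
        rw [this]
        exact h4
      obtain ⟨t, ht1, ht2⟩ := ((h5.eventually h6).and (self_mem_nhdsWithin (s := Ioi (0:ℝ)))).exists
      exact ⟨(t, 0, 0), ht1, ht2⟩
    refine lt_of_lt_of_le (hopen.measure_pos volume hne) (measure_mono ?_)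
    rintro p ⟨hp1, hp2⟩
    exact ⟨ne_of_gt hp1, hp2⟩

theorem not_super (U : Opens ((ℂ × ℂ × W) × V)) (hU : (0 : (ℂ × ℂ × W) × V) ∈ U) :
    ¬ IsSuperpositionOn (trop W V) U := by
  rintro ⟨m, ν, hν⟩
  obtain ⟨ε, hε, hball⟩ := Metric.isOpen_iff.1 U.isOpen 0 hU
  obtain ⟨ι, _, l, hl⟩ : ∃ (ι : Type) (_ : Fintype ι) (l : ι → (ℂ × ℂ × W) →L[ℂ] ℂ),
      ∀ x, (∀ j, l j x = 0) → x = 0 := by
    let b := Module.finBasis ℂ (ℂ × ℂ × W)
    refine ⟨_, inferInstance, fun j => LinearMap.toContinuousLinearMap (b.coord j), fun x hx => ?_⟩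
    exact b.forall_coord_eq_zero_iff.1 hx
  -- test functions
  have hbump : ∀ x : (ℂ × ℂ × W) × V, ∀ O ∈ 𝓝 x, ∃ ψ : (ℂ × ℂ × W) × V → ℝ, (∀ y, 0 ≤ ψ y) ∧
      ContDiff ℝ ∞ ψ ∧ HasCompactSupport ψ ∧ tsupport ψ ⊆ O ∧ 0 < ψ x := by
    intro x O hO
    obtain ⟨f, hf1, hf2, hf3, hf4, hf5⟩ := exists_contDiff_tsupport_subset (n := ⊤) hO
    refine ⟨f, fun y => (hf4 (mem_range_self y)).1, hf3, hf2, hf1, ?_⟩
    rw [hf5]
    exact one_pos
  set O : Set ((ℂ × ℂ × W) × V) := U ∩ (ZZ W V)ᶜ with hO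
  have hOo : IsOpen O := U.isOpen.inter (ZZ_closed W V).isOpen_compl
  choose! ψ hψ0 hψ1 hψ2 hψ3 hψ4 using fun (x : (ℂ × ℂ × W) × V) (hx : x ∈ O) =>
    hbump x O (hOo.mem_nhds hx)
  obtain ⟨T, hTc, hT⟩ := TopologicalSpace.isOpen_iUnion_countable
    (fun x : O => {y | 0 < ψ x y}) (fun x => isOpen_lt continuous_const (hψ1 x x.2).continuous)
  have hae : ∀ x : O, ∀ᵐ c : curves U ∂ν, c.1 (mkForm (kform V l) (ψ x) (hψ1 x x.2)
      (hψ2 x x.2) ((hψ3 x x.2).trans inter_subset_left)) = 0 := by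
    intro x
    obtain ⟨hi, he⟩ := hν (mkForm (kform V l) (ψ x) (hψ1 x x.2) (hψ2 x x.2)
      ((hψ3 x x.2).trans inter_subset_left))
    rw [trop_zero W V] at he
    · refine (integral_eq_zero_iff_of_nonneg (fun c => ?_) hi).1 he.symm
      obtain ⟨C, hC⟩ := c.2
      exact nonneg_of_isIntegral C l (ψ x) (hψ0 x x.2) _ _ _ (hC _)
    · intro y hy
      by_contra hne
      exact (hψ3 x x.2 (subset_tsupport _ hne)).2 hy
  have hae2 : ∀ᵐ c : curves U ∂ν, ∀ x ∈ T, c.1 (mkForm (kform V l) (ψ x) (hψ1 x x.2)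
      (hψ2 x x.2) ((hψ3 x x.2).trans inter_subset_left)) = 0 :=
    (ae_ball_iff hTc).2 fun x _ => hae x
  obtain ⟨χ, hχ0, hχ1, hχ2, hχ3, hχ4⟩ := hbump 0 _ (Metric.ball_mem_nhds 0 hε)
  have hae3 : ∀ᵐ c : curves U ∂ν, c.1 (mkForm (kform V l) χ hχ1 hχ2 (hχ3.trans hball)) = 0 := by
    filter_upwards [hae2] with c hc
    obtain ⟨C, hC⟩ := c.2
    have hZ : ∀ p, (C.u p, C.s) ∈ ZZ W V := by
      intro p
      by_contra hp
      have hpO : (C.u p, C.s) ∈ O := ⟨C.mem p, hp⟩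
      have h1 : (C.u p, C.s) ∈ ⋃ x : O, {y | 0 < ψ x y} := by
        rw [mem_iUnion]
        exact ⟨⟨_, hpO⟩, hψ4 _ hpO⟩
      rw [← hT] at h1
      obtain ⟨x, hxT, hx⟩ := mem_iUnion₂.1 h1
      have hI := hC (mkForm (kform V l) (ψ x) (hψ1 x x.2) (hψ2 x x.2)
        ((hψ3 x x.2).trans inter_subset_left))
      rw [hc x hxT] at hI
      have h2 := mfderiv_of_isIntegral C l hl (ψ x) (hψ0 x x.2) _ _ _ hI
      have hcont : Continuous fun q => ψ x (C.u q, C.s) :=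
        (hψ1 x x.2).continuous.comp (C.continuous.prodMk continuous_const)
      exact C.not_const (const_of_mfderiv_zero C.mdiff
        (O := {q | 0 < ψ x (C.u q, C.s)}) (isOpen_lt continuous_const hcont) (p₀ := p) hx
        fun q hq => h2 q hq)
    have hmiss : ∀ p, (C.u p, C.s) ∉ Metric.ball (0 : (ℂ × ℂ × W) × V) ε := by
      intro p
      have h5 : C.s = 0 := (hZ p).1
      exact curve_misses C hball h5 (fun q => (hZ q).2.1) (fun q => (hZ q).2.2) p
    refine zero_of_isIntegral C l χ _ _ _ (hC _) fun p => ?_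
    by_contra hne
    exact hmiss p (hχ3 (subset_tsupport _ hne))
  have hfin := (hν (mkForm (kform V l) χ hχ1 hχ2 (hχ3.trans hball))).2
  rw [integral_eq_zero_of_ae hae3] at hfin
  exact (trop_pos W V l hl χ hχ0 hχ1 hχ2 (hχ3.trans hball) hχ4).ne' hfin

end Pool.Agent.K4H30.LC
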