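import Mathlib

/-! Holomorphic maps on connected Riemann surfaces: identity theorem, open mapping theorem. -/

set_option autoImplicit false

namespace Pool.Agent.K4H30.LC

open Set Function Filter
open scoped Manifold Topology

variable {S : Type*} [TopologicalSpace S] [ChartedSpace ℂ S] [IsManifold 𝓘(ℂ) 1 S]
variable {F : Type*} [NormedAddCommGroup F] [NormedSpace ℂ F]

theorem diffOn_symm {u : S → F} (hu : MDifferentiable 𝓘(ℂ) 𝓘(ℂ, F) u)
    {e : OpenPartialHomeomorph S ℂ} (he : e ∈ atlas ℂ S) :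
    DifferentiableOn ℂ (u ∘ e.symm) e.target := by
  rw [← mdifferentiableOn_iff_differentiableOn]
  exact hu.comp_mdifferentiableOn (mdifferentiableOn_atlas_symm he)

theorem diffAt_symm {u : S → F} (hu : MDifferentiable 𝓘(ℂ) 𝓘(ℂ, F) u)
    {e : OpenPartialHomeomorph S ℂ} (he : e ∈ atlas ℂ S) {z : ℂ} (hz : z ∈ e.target) :
    DifferentiableAt ℂ (u ∘ e.symm) z :=
  (diffOn_symm hu he).differentiableAt (e.open_target.mem_nhds hz)

/-- If the derivative in one chart vanishes at a point, then the derivative is zero there. -/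
theorem mfderiv_zero_of {u : S → F} (hu : MDifferentiable 𝓘(ℂ) 𝓘(ℂ, F) u)
    {e : OpenPartialHomeomorph S ℂ} (he : e ∈ atlas ℂ S) {p : S} (hp : p ∈ e.source)
    (h : fderiv ℂ (u ∘ e.symm) (e p) = 0) : mfderiv 𝓘(ℂ) 𝓘(ℂ, F) u p = 0 := by
  have h1 : (u ∘ e.symm) ∘ e =ᶠ[𝓝 p] u := by
    filter_upwards [e.open_source.mem_nhds hp] with q hq
    simp [e.left_inv hq]
  have h2 : MDifferentiableAt 𝓘(ℂ) 𝓘(ℂ, F) (u ∘ e.symm) (e p) := by
    rw [mdifferentiableAt_iff_differentiableAt]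
    exact diffAt_symm hu he (e.map_source hp)
  have h3 := mfderiv_comp p h2 (mdifferentiableAt_atlas (I := 𝓘(ℂ)) he hp)
  rw [h1.mfderiv_eq] at h3
  rw [h3, mfderiv_eq_fderiv, h]
  exact ContinuousLinearMap.zero_comp _

theorem fderiv_zero_of {u : S → F} (hu : MDifferentiable 𝓘(ℂ) 𝓘(ℂ, F) u)
    {e : OpenPartialHomeomorph S ℂ} (he : e ∈ atlas ℂ S) {z : ℂ} (hz : z ∈ e.target)
    (h : mfderiv 𝓘(ℂ) 𝓘(ℂ, F) u (e.symm z) = 0) : fderiv ℂ (u ∘ e.symm) z = 0 := by
  have h3 := mfderiv_comp z (hu (e.symm z)) (mdifferentiableAt_atlas_symm (I := 𝓘(ℂ)) he hz)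
  rw [h, mfderiv_eq_fderiv] at h3
  rw [h3]
  exact ContinuousLinearMap.zero_comp _

/-- **Identity theorem** -/
theorem const_of_eventually [ConnectedSpace S] [CompleteSpace F] {u : S → F}
    (hu : MDifferentiable 𝓘(ℂ) 𝓘(ℂ, F) u)
    {c : F} {p₀ : S} (h : ∀ᶠ q in 𝓝 p₀, u q = c) : ∀ q, u q = c := by
  set A : Set S := {p | ∀ᶠ q in 𝓝 p, u q = c} with hA
  have hopen : IsOpen A := isOpen_iff_mem_nhds.2 fun p hp => eventually_eventually_nhds.2 hp
  have hclosed : IsClosed A := by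
    rw [← closure_subset_iff_isClosed]
    intro p hp
    set e := chartAt ℂ p with he
    have hea : e ∈ atlas ℂ S := chart_mem_atlas ℂ p
    have hpe : p ∈ e.source := mem_chart_source ℂ p
    obtain ⟨r, hr, hball⟩ := Metric.isOpen_iff.1 e.open_target (e p) (e.map_source hpe)
    have hn : e.source ∩ e ⁻¹' Metric.ball (e p) r ∈ 𝓝 p :=
      (e.isOpen_inter_preimage Metric.isOpen_ball).mem_nhds ⟨hpe, Metric.mem_ball_self hr⟩
    obtain ⟨a, ⟨ha1, ha2⟩, ha3⟩ := mem_closure_iff_nhds.1 hp _ hn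
    have h1 : AnalyticOnNhd ℂ (u ∘ e.symm) (Metric.ball (e p) r) :=
      ((diffOn_symm hu hea).mono hball).analyticOnNhd Metric.isOpen_ball
    have h2 : (u ∘ e.symm) =ᶠ[𝓝 (e a)] fun _ => c := by
      have h3 : Tendsto e.symm (𝓝 (e a)) (𝓝 a) := by
        have := e.continuousAt_symm (e.map_source ha1)
        rw [ContinuousAt, e.left_inv ha1] at this
        exact this
      exact h3.eventually ha3
    have h4 := h1.eqOn_of_preconnected_of_eventuallyEq analyticOnNhd_const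
      (convex_ball _ _).isPreconnected ha2 h2
    filter_upwards [hn] with q hq
    have h5 := h4 hq.2
    simpa [e.left_inv hq.1] using h5
  have huniv : A = univ := IsClopen.eq_univ ⟨hclosed, hopen⟩ ⟨p₀, h⟩
  intro q
  have : q ∈ A := huniv ▸ mem_univ q
  exact this.self_of_nhds

/-- If the derivative vanishes on a non-empty open set, then the map is constant. -/
theorem const_of_mfderiv_zero [ConnectedSpace S] [CompleteSpace F] {u : S → F}
    (hu : MDifferentiable 𝓘(ℂ) 𝓘(ℂ, F) u) {O : Set S} (hO : IsOpen O) {p₀ : S} (hp : p₀ ∈ O)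
    (h : ∀ p ∈ O, mfderiv 𝓘(ℂ) 𝓘(ℂ, F) u p = 0) : ∀ q, u q = u p₀ := by
  apply const_of_eventually hu (p₀ := p₀)
  set e := chartAt ℂ p₀ with he
  have hea : e ∈ atlas ℂ S := chart_mem_atlas ℂ p₀
  have hpe : p₀ ∈ e.source := mem_chart_source ℂ p₀
  have h1 : IsOpen (e.target ∩ e.symm ⁻¹' O) := e.isOpen_inter_preimage_symm hO
  obtain ⟨r, hr, hball⟩ := Metric.isOpen_iff.1 h1 (e p₀)
    ⟨e.map_source hpe, by rw [mem_preimage, e.left_inv hpe]; exact hp⟩
  have h2 : ∀ z ∈ Metric.ball (e p₀) r, (u ∘ e.symm) z = (u ∘ e.symm) (e p₀) := by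
    intro z hz
    apply (convex_ball (e p₀) r).is_const_of_fderivWithin_eq_zero (𝕜 := ℂ) _ _ hz
      (Metric.mem_ball_self hr)
    · exact (diffOn_symm hu hea).mono fun w hw => (hball hw).1
    · intro w hw
      rw [fderivWithin_of_isOpen Metric.isOpen_ball hw]
      exact fderiv_zero_of hu hea (hball hw).1 (h _ (hball hw).2)
  have hn : e.source ∩ e ⁻¹' Metric.ball (e p₀) r ∈ 𝓝 p₀ :=
    (e.isOpen_inter_preimage Metric.isOpen_ball).mem_nhds ⟨hpe, Metric.mem_ball_self hr⟩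
  filter_upwards [hn] with q hq
  have h5 := h2 _ hq.2
  simpa [e.left_inv hq.1, e.left_inv hpe] using h5

/-- **Open mapping theorem** -/
theorem nhds_le_map [ConnectedSpace S] {g : S → ℂ} (hg : MDifferentiable 𝓘(ℂ) 𝓘(ℂ) g)
    (hne : ¬ ∃ c, ∀ q, g q = c) (p : S) : 𝓝 (g p) ≤ map g (𝓝 p) := by
  set e := chartAt ℂ p with he
  have hea : e ∈ atlas ℂ S := chart_mem_atlas ℂ p
  have hpe : p ∈ e.source := mem_chart_source ℂ p
  have h3 : map e.symm (𝓝 (e p)) = 𝓝 p := e.symm_map_nhds_eq hpe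
  have han : AnalyticAt ℂ (g ∘ e.symm) (e p) :=
    ((diffOn_symm hg hea).analyticOnNhd e.open_target) _ (e.map_source hpe)
  have h6 : (g ∘ e.symm) (e p) = g p := by simp [e.left_inv hpe]
  rcases han.eventually_constant_or_nhds_le_map_nhds with h | h
  · exfalso
    apply hne
    refine ⟨g p, const_of_eventually hg (p₀ := p) ?_⟩
    rw [← h3, eventually_map]
    rw [h6] at h
    exact h
  · rw [h6, ← map_map, h3] at h
    exact h

/-- A holomorphic function whose real part vanishes on a non-empty open set is constant. -/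
theorem const_of_re_zero [ConnectedSpace S] {g : S → ℂ} (hg : MDifferentiable 𝓘(ℂ) 𝓘(ℂ) g)
    {p : S} (h : ∀ᶠ q in 𝓝 p, (g q).re = 0) : ∃ c, ∀ q, g q = c := by
  by_contra hne
  have h1 := nhds_le_map hg hne p
  have h2 : ∀ᶠ w in 𝓝 (g p), w.re = 0 := h1 (eventually_map.2 h)
  have h3 : (g p).re = 0 := h2.self_of_nhds
  have h4 : Tendsto (fun t : ℝ => g p + t) (𝓝 0) (𝓝 (g p)) := by
    have : ContinuousAt (fun t : ℝ => g p + (t : ℂ)) 0 := by fun_prop
    simpa [ContinuousAt] using this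
  have h5 : ∀ᶠ t : ℝ in 𝓝 0, t = 0 := by
    filter_upwards [h4.eventually h2] with t ht
    simpa [h3] using ht
  have h6 : ({0} : Set ℝ) ∈ 𝓝 0 := by
    filter_upwards [h5] with t ht
    exact ht
  have := mem_nhds_iff.1 h6
  obtain ⟨ε, hε, hb⟩ := Metric.mem_nhds_iff.1 h6
  have h7 : ε / 2 ∈ Metric.ball (0 : ℝ) ε := by
    rw [Metric.mem_ball, Real.dist_eq, sub_zero, abs_of_pos (half_pos hε)]
    exact half_lt_self hε
  have h8 : ε / 2 = 0 := hb h7
  linarith

end Pool.Agent.K4H30.LC
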