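import Pool.Agent.K4H30.LC.Defs
import Pool.Agent.K4H30.LC.Surf

/-! Curves whose real part lies in the tropical line. -/

set_option autoImplicit false
set_option linter.unusedSectionVars false

namespace Pool.Agent.K4H30.LC

open Set Function Filter TopologicalSpace
open scoped Manifold Topology

section Line

variable {L V : Type*} [NormedAddCommGroup L] [NormedSpace ℂ L] [NormedAddCommGroup V]
  [NormedSpace ℝ V]

theorem Curve.not_const {U : Opens (L × V)} (C : Curve U) {c : L} (h : ∀ q, C.u q = c) : False := by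
  obtain ⟨p, hp, -⟩ := C.somewhere_injective
  apply hp
  have : C.u = fun _ => c := funext h
  unfold DiffZero
  rw [this]
  exact deriv_const _ _

theorem Curve.mdiff {U : Opens (L × V)} (C : Curve U) : MDifferentiable 𝓘(ℂ) 𝓘(ℂ, L) C.u :=
  C.holomorphic

theorem Curve.continuous {U : Opens (L × V)} (C : Curve U) : Continuous C.u :=
  C.mdiff.continuous

theorem line_subset {U : Opens (L × V)} (C : Curve U) {g : C.S → ℂ}
    (hg : MDifferentiable 𝓘(ℂ) 𝓘(ℂ) g) (hne : ¬ ∃ c, ∀ q, g q = c)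
    {A : ℂ → L × V} (hA : Continuous A) (hinj : Injective A) (hgA : ∀ p, (C.u p, C.s) = A (g p))
    {D : Set ℂ} (hDo : IsOpen D) (hDc : IsPreconnected D) (hDU : ∀ z ∈ D, A z ∈ U) {p₀ : C.S}
    (hp₀ : g p₀ ∈ D) : D ⊆ range g := by
  have hopen : IsOpen (range g) := by
    rw [isOpen_iff_mem_nhds]
    rintro _ ⟨p, rfl⟩
    exact nhds_le_map hg hne p (Filter.mem_map.2 (Filter.univ_mem' fun q => mem_range_self q))
  have hcl : IsClosed (range (fun p => (⟨(C.u p, C.s), C.mem p⟩ : U))) :=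
    C.proper.isClosedMap.isClosed_range
  obtain ⟨O, hO, hOr⟩ := isOpen_induced_iff.1 hcl.isOpen_compl
  set W : Set ℂ := D ∩ A ⁻¹' (O ∩ U) with hW
  have hWo : IsOpen W := hDo.inter ((hO.inter U.isOpen).preimage hA)
  have key : ∀ z (hz : A z ∈ U), A z ∈ O ↔ z ∉ range g := by
    intro z hz
    have h1 : (⟨A z, hz⟩ : U) ∈ (Subtype.val ⁻¹' O : Set U) ↔ A z ∈ O := Iff.rfl
    rw [← h1, hOr, mem_compl_iff, not_iff_not]
    constructor
    · rintro ⟨p, hp⟩
      refine ⟨p, hinj ?_⟩
      rw [← hgA]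
      exact congrArg Subtype.val hp
    · rintro ⟨p, rfl⟩
      exact ⟨p, Subtype.ext (hgA p)⟩
  have hdisj : Disjoint (range g) W := by
    rw [Set.disjoint_left]
    intro z hz hzW
    exact (key z hzW.2.2).1 hzW.2.1 hz
  have hsub : D ⊆ range g ∪ W := by
    intro z hz
    by_cases h : z ∈ range g
    · exact Or.inl h
    · exact Or.inr ⟨hz, (key z (hDU z hz)).2 h, hDU z hz⟩
  exact hDc.subset_left_of_subset_union hopen hWo hdisj hsub ⟨_, hp₀, mem_range_self _⟩

theorem no_point {U : Opens (L × V)} (C : Curve U) {ε : ℝ} (hball : Metric.ball (0 : L × V) ε ⊆ U)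
    {g : C.S → ℂ}
    (hg : MDifferentiable 𝓘(ℂ) 𝓘(ℂ) g) (hne : ¬ ∃ c, ∀ q, g q = c) (hre : ∀ q, (g q).re ≤ 0)
    {A : ℂ → L × V} (hA : Continuous A) (hinj : Injective A) (hgA : ∀ p, (C.u p, C.s) = A (g p))
    (b : ℝ) (c : ℂ) (hc : c.re = 0)
    (hnorm : ∀ z, A z ∈ Metric.ball (0 : L × V) ε ↔ ‖z‖ < ε ∧ ‖(b : ℂ) * z + c‖ < ε)
    (p₀ : C.S) : (C.u p₀, C.s) ∉ Metric.ball (0 : L × V) ε := by
  intro hp₀
  set D : Set ℂ := A ⁻¹' Metric.ball (0 : L × V) ε with hD
  have hDo : IsOpen D := Metric.isOpen_ball.preimage hA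
  have hconv : Convex ℝ D := by
    intro x hx y hy s t hs ht hst
    have hx' := (hnorm x).1 hx
    have hy' := (hnorm y).1 hy
    refine (hnorm _).2 ⟨?_, ?_⟩
    · have := (convex_ball (0 : ℂ) ε) (x := x) (by simpa using hx'.1) (y := y)
        (by simpa using hy'.1) hs ht hst
      simpa using this
    · have := (convex_ball (0 : ℂ) ε) (x := (b : ℂ) * x + c) (by simpa using hx'.2)
        (y := (b : ℂ) * y + c) (by simpa using hy'.2) hs ht hst
      have h2 : (b : ℂ) * (s • x + t • y) + c = s • ((b : ℂ) * x + c) + t • ((b : ℂ) * y + c) := by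
        have h3 : (s : ℂ) + t = 1 := by exact_mod_cast hst
        simp only [Complex.real_smul]
        linear_combination (-c) * h3
      rw [h2]
      simpa using this
  have hp₀' : g p₀ ∈ D := by
    show A (g p₀) ∈ Metric.ball (0 : L × V) ε
    rw [← hgA]
    exact hp₀
  have hsub := line_subset C hg hne hA hinj hgA hDo hconv.isPreconnected (fun z hz => hball hz) hp₀'
  set z₁ : ℂ := ((g p₀).im : ℂ) * Complex.I with hz₁
  have hz₁D : z₁ ∈ D := by
    have h := (hnorm _).1 hp₀'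
    refine (hnorm _).2 ⟨?_, ?_⟩
    · refine lt_of_le_of_lt ?_ h.1
      rw [hz₁, norm_mul, Complex.norm_I, mul_one, Complex.norm_real]
      exact Complex.abs_im_le_norm _
    · refine lt_of_le_of_lt ?_ h.2
      have h4 : (b : ℂ) * z₁ + c = (((b : ℂ) * g p₀ + c).im : ℂ) * Complex.I := by
        apply Complex.ext
        · simp [hz₁, hc]
        · simp [hz₁]
      rw [h4, norm_mul, Complex.norm_I, mul_one, Complex.norm_real]
      exact Complex.abs_im_le_norm _
  have hcont : Tendsto (fun t : ℝ => z₁ + (t : ℂ)) (𝓝[>] 0) (𝓝 z₁) := by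
    have : ContinuousAt (fun t : ℝ => z₁ + (t : ℂ)) 0 := by fun_prop
    have h5 : Tendsto (fun t : ℝ => z₁ + (t : ℂ)) (𝓝 0) (𝓝 z₁) := by
      simpa [ContinuousAt] using this
    exact h5.mono_left nhdsWithin_le_nhds
  obtain ⟨t, ht1, ht2⟩ := ((hcont.eventually (hDo.mem_nhds hz₁D)).and
    (self_mem_nhdsWithin (s := Ioi (0 : ℝ)))).exists
  obtain ⟨q, hq⟩ := hsub ht1
  have h6 := hre q
  rw [hq] at h6
  simp [hz₁] at h6
  have ht2' : (0 : ℝ) < t := ht2
  linarith

end Line

/-- the tropical line `{max (0, x, y) is attained twice}` -/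
def Trop (x y : ℝ) : Prop := (y = 0 ∧ x ≤ 0) ∨ (x = 0 ∧ y ≤ 0) ∨ (x = y ∧ 0 ≤ x)

variable {W V : Type*} [NormedAddCommGroup W] [NormedSpace ℂ W] [NormedAddCommGroup V]
  [NormedSpace ℝ V]

theorem mdiff_comp_clm {L F : Type*} [NormedAddCommGroup L] [NormedSpace ℂ L]
    [NormedAddCommGroup F] [NormedSpace ℂ F]
    {S : Type*} [TopologicalSpace S] [ChartedSpace ℂ S]
    {u : S → L} (hu : MDifferentiable 𝓘(ℂ) 𝓘(ℂ, L) u) (f : L →L[ℂ] F) :
    MDifferentiable 𝓘(ℂ) 𝓘(ℂ, F) (fun p => f (u p)) :=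
  (f.differentiable.mdifferentiable).comp hu

/-- A curve in a neighbourhood `U` of the ball, with real part in the tropical line, does not meet
the ball. -/
theorem curve_misses {U : Opens ((ℂ × ℂ × W) × V)} (C : Curve U) {ε : ℝ}
    (hball : Metric.ball (0 : (ℂ × ℂ × W) × V) ε ⊆ U)
    (hs : C.s = 0) (hw : ∀ p, (C.u p).2.2 = 0)
    (ht : ∀ p, Trop (C.u p).1.re (C.u p).2.1.re) (p₀ : C.S) :
    (C.u p₀, C.s) ∉ Metric.ball (0 : (ℂ × ℂ × W) × V) ε := by
  have hu := C.mdiff
  have h1 : MDifferentiable 𝓘(ℂ) 𝓘(ℂ) (fun p => (C.u p).1) :=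
    mdiff_comp_clm hu (ContinuousLinearMap.fst ℂ ℂ (ℂ × W))
  have h2 : MDifferentiable 𝓘(ℂ) 𝓘(ℂ) (fun p => (C.u p).2.1) :=
    mdiff_comp_clm hu ((ContinuousLinearMap.fst ℂ ℂ W).comp (ContinuousLinearMap.snd ℂ ℂ (ℂ × W)))
  have h3 : MDifferentiable 𝓘(ℂ) 𝓘(ℂ) (fun p => (C.u p).1 - (C.u p).2.1) :=
    mdiff_comp_clm hu (ContinuousLinearMap.fst ℂ ℂ (ℂ × W) -
      (ContinuousLinearMap.fst ℂ ℂ W).comp (ContinuousLinearMap.snd ℂ ℂ (ℂ × W)))
  have c1 : Continuous (fun p => (C.u p).1.re) := Complex.continuous_re.comp h1.continuous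
  have c2 : Continuous (fun p => (C.u p).2.1.re) := Complex.continuous_re.comp h2.continuous
  -- one of the three closed sets has interior points
  have hcase : (∃ p, ∀ᶠ q in 𝓝 p, (C.u q).2.1.re = 0) ∨ (∃ p, ∀ᶠ q in 𝓝 p, (C.u q).1.re = 0) ∨
      (∃ p, ∀ᶠ q in 𝓝 p, ((C.u q).1 - (C.u q).2.1).re = 0) := by
    by_contra hcon
    rw [not_or, not_or, not_exists, not_exists, not_exists] at hcon
    obtain ⟨n1, n2, n3⟩ := hcon
    have e1 : interior {p | (C.u p).2.1.re = 0} = ∅ := by
      rw [eq_empty_iff_forall_notMem]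
      intro p hp
      exact n1 p (mem_interior_iff_mem_nhds.1 hp)
    have e2 : interior {p | (C.u p).1.re = 0} = ∅ := by
      rw [eq_empty_iff_forall_notMem]
      intro p hp
      exact n2 p (mem_interior_iff_mem_nhds.1 hp)
    have e3 : interior {p | ((C.u p).1 - (C.u p).2.1).re = 0} = ∅ := by
      rw [eq_empty_iff_forall_notMem]
      intro p hp
      exact n3 p (mem_interior_iff_mem_nhds.1 hp)
    have hc1 : IsClosed {p | (C.u p).2.1.re = 0} := isClosed_eq c2 continuous_const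
    have hc2 : IsClosed {p | (C.u p).1.re = 0} := isClosed_eq c1 continuous_const
    have e4 : interior ({p | (C.u p).2.1.re = 0} ∪ {p | (C.u p).1.re = 0}) = ∅ := by
      rw [interior_union_isClosed_of_interior_empty hc1 e2, e1]
    have e5 : interior (({p | (C.u p).2.1.re = 0} ∪ {p | (C.u p).1.re = 0}) ∪
        {p | ((C.u p).1 - (C.u p).2.1).re = 0}) = ∅ := by
      rw [interior_union_isClosed_of_interior_empty (hc1.union hc2) e3, e4]
    have e6 : (({p | (C.u p).2.1.re = 0} ∪ {p | (C.u p).1.re = 0}) ∪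
        {p | ((C.u p).1 - (C.u p).2.1).re = 0}) = univ := by
      rw [eq_univ_iff_forall]
      intro p
      rcases ht p with h | h | h
      · exact Or.inl (Or.inl h.1)
      · exact Or.inl (Or.inr h.1)
      · right
        show ((C.u p).1 - (C.u p).2.1).re = 0
        rw [Complex.sub_re, h.1, sub_self]
    rw [e6, interior_univ] at e5
    exact (univ_nonempty (α := C.S)).ne_empty e5
  rcases hcase with ⟨p, hp⟩ | ⟨p, hp⟩ | ⟨p, hp⟩
  · obtain ⟨c, hc⟩ := const_of_re_zero h2 hp
    have hcre : c.re = 0 := by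
      have := hp.self_of_nhds
      rw [← hc p]
      exact this
    have heq : ∀ q, C.u q = ((C.u q).1, c, 0) := fun q =>
      Prod.ext rfl (Prod.ext (hc q) (hw q))
    refine no_point C hball h1 ?_ ?_ (A := fun z => ((z, c, 0), 0)) (by fun_prop) ?_ ?_ 0 c hcre
      ?_ p₀
    · rintro ⟨c', hc'⟩
      exact C.not_const (c := (c', c, 0)) fun q => by rw [heq q, hc' q]
    · intro q
      have h := ht q
      have h' : (C.u q).2.1.re = 0 := by rw [hc q]; exact hcre
      rcases h with h | h | h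
      · exact h.2
      · exact h.1.le
      · rw [h.1, h']
    · intro x y hxy
      exact (Prod.ext_iff.1 (Prod.ext_iff.1 hxy).1).1
    · intro q
      rw [hs, heq q]
    · intro z
      simp [Prod.norm_def]
  · obtain ⟨c, hc⟩ := const_of_re_zero h1 hp
    have hcre : c.re = 0 := by
      have := hp.self_of_nhds
      rw [← hc p]
      exact this
    have heq : ∀ q, C.u q = (c, (C.u q).2.1, 0) := fun q =>
      Prod.ext (hc q) (Prod.ext rfl (hw q))
    refine no_point C hball h2 ?_ ?_ (A := fun z => ((c, z, 0), 0)) (by fun_prop) ?_ ?_ 0 c hcre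
      ?_ p₀
    · rintro ⟨c', hc'⟩
      exact C.not_const (c := (c, c', 0)) fun q => by rw [heq q, hc' q]
    · intro q
      have h := ht q
      have h' : (C.u q).1.re = 0 := by rw [hc q]; exact hcre
      rcases h with h | h | h
      · exact h.1.le
      · exact h.2
      · rw [← h.1, h']
    · intro x y hxy
      exact (Prod.ext_iff.1 (Prod.ext_iff.1 (Prod.ext_iff.1 hxy).1).2).1
    · intro q
      rw [hs, heq q]
    · intro z
      simp [Prod.norm_def, and_comm]
  · obtain ⟨c, hc⟩ := const_of_re_zero h3 hp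
    have hcre : c.re = 0 := by
      have := hp.self_of_nhds
      rw [← hc p]
      exact this
    have heq : ∀ q, C.u q = (-(-(C.u q).1), -(-(C.u q).1) - c, 0) := fun q => by
      refine Prod.ext (by simp) (Prod.ext ?_ (hw q))
      rw [← hc q]
      simp
    have h4 : MDifferentiable 𝓘(ℂ) 𝓘(ℂ) (fun p => -(C.u p).1) :=
      mdiff_comp_clm hu (-(ContinuousLinearMap.fst ℂ ℂ (ℂ × W)))
    refine no_point C hball h4 ?_ ?_ (A := fun z => ((-z, -z - c, 0), 0)) (by fun_prop) ?_ ?_ 1 c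
      hcre ?_ p₀
    · rintro ⟨c', hc'⟩
      exact C.not_const (c := (-c', -c' - c, 0)) fun q => by rw [heq q, hc' q]
    · intro q
      have h := ht q
      have h' : (C.u q).1.re - (C.u q).2.1.re = 0 := by
        rw [← Complex.sub_re, hc q]
        exact hcre
      rw [Complex.neg_re]
      rcases h with h | h | h
      · linarith [h.1]
      · linarith [h.1]
      · linarith [h.2]
    · intro x y hxy
      have := (Prod.ext_iff.1 (Prod.ext_iff.1 hxy).1).1
      exact neg_injective this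
    · intro q
      rw [hs, ← heq q]
    · intro z
      have h5 : ‖-z - c‖ = ‖z + c‖ := by
        rw [← norm_neg]
        congr 1
        ring
      simp [Prod.norm_def, h5]

end Pool.Agent.K4H30.LC
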