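import Pool.Agent.K4H30.LC.Geo

/-! Integrals of multiples of the Kähler form over curves. -/

set_option autoImplicit false
set_option linter.unusedSectionVars false

namespace Pool.Agent.K4H30.LC

open Set Function Filter TopologicalSpace MeasureTheory
open scoped Manifold Topology Distributions ContDiff

section two

variable {E : Type*} [NormedAddCommGroup E] [NormedSpace ℝ E]

/-- `a ∧ b` -/
noncomputable def two (a b : E →L[ℝ] ℝ) : E [⋀^Fin 2]→L[ℝ] ℝ :=
  ContinuousMultilinearMap.alternatization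
    ((ContinuousMultilinearMap.mkPiAlgebra ℝ (Fin 2) ℝ).compContinuousLinearMap ![a, b])

theorem two_apply (a b : E →L[ℝ] ℝ) (x y : E) : two a b ![x, y] = a x * b y - a y * b x := by
  unfold two
  rw [ContinuousMultilinearMap.alternatization_apply_apply]
  simp only [Fin.prod_univ_two, Matrix.cons_val_zero, Function.comp_apply,
    ContinuousMultilinearMap.compContinuousLinearMap_apply,
    ContinuousMultilinearMap.mkPiAlgebra_apply, Matrix.cons_val_one]
  rw [show (Finset.univ : Finset (Equiv.Perm (Fin 2))) = {1, Equiv.swap 0 1} by decide]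
  rw [Finset.sum_pair (by decide)]
  simp
  ring

end two

variable {L V : Type*} [NormedAddCommGroup L] [NormedSpace ℂ L] [NormedAddCommGroup V]
  [NormedSpace ℝ V]

variable (V) in
/-- `i/2 λ ∧ conj λ` -/
noncomputable def kf (l : L →L[ℂ] ℂ) : (L × V) [⋀^Fin 2]→L[ℝ] ℝ :=
  two ((Complex.reCLM.comp (l.restrictScalars ℝ)).comp (ContinuousLinearMap.fst ℝ L V))
    ((Complex.imCLM.comp (l.restrictScalars ℝ)).comp (ContinuousLinearMap.fst ℝ L V))

theorem kf_apply (l : L →L[ℂ] ℂ) (x : L) :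
    kf V l ![(x, 0), (Complex.I • x, 0)] = ‖l x‖ ^ 2 := by
  unfold kf
  rw [two_apply, ← Complex.normSq_eq_norm_sq, Complex.normSq_apply]
  simp

theorem Curve.coeff_eq {U : Opens (L × V)} (C : Curve U) (α : Form U 2)
    (e : OpenPartialHomeomorph C.S ℂ) (z : ℂ) :
    C.coeff α e z = α (C.u (e.symm z), C.s) ![(fderiv ℂ (C.u ∘ e.symm) z 1, 0),
      (Complex.I • fderiv ℂ (C.u ∘ e.symm) z 1, 0)] := rfl

variable {ι : Type*} [Fintype ι]

variable (V) in
/-- the Kähler form -/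
noncomputable def kform (l : ι → L →L[ℂ] ℂ) : (L × V) [⋀^Fin 2]→L[ℝ] ℝ := ∑ j, kf V (l j)

theorem kform_apply (l : ι → L →L[ℂ] ℂ) (x : L) :
    kform V l ![(x, 0), (Complex.I • x, 0)] = ∑ j, ‖l j x‖ ^ 2 := by
  unfold kform
  rw [ContinuousAlternatingMap.sum_apply]
  exact Finset.sum_congr rfl fun j _ => kf_apply _ _

/-- `ψ ω` as a test form -/
noncomputable def mkForm {U : Opens (L × V)} (a : (L × V) [⋀^Fin 2]→L[ℝ] ℝ) (ψ : L × V → ℝ)
    (h1 : ContDiff ℝ ∞ ψ) (h2 : HasCompactSupport ψ) (h3 : tsupport ψ ⊆ U) : Form U 2 :=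
  TestFunction.mk (fun x => ψ x • a) (h1.smul contDiff_const) h2.smul_right
    ((tsupport_smul_subset_left _ _).trans h3)

theorem mkForm_apply {U : Opens (L × V)} (a : (L × V) [⋀^Fin 2]→L[ℝ] ℝ) (ψ : L × V → ℝ)
    (h1 : ContDiff ℝ ∞ ψ) (h2 : HasCompactSupport ψ) (h3 : tsupport ψ ⊆ U) (x : L × V) :
    mkForm a ψ h1 h2 h3 x = ψ x • a := rfl

theorem coeff_mkForm {U : Opens (L × V)} (C : Curve U) (l : ι → L →L[ℂ] ℂ) (ψ : L × V → ℝ)
    (h1 : ContDiff ℝ ∞ ψ) (h2 : HasCompactSupport ψ) (h3 : tsupport ψ ⊆ U)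
    (e : OpenPartialHomeomorph C.S ℂ) (z : ℂ) :
    C.coeff (mkForm (kform V l) ψ h1 h2 h3) e z =
      ψ (C.u (e.symm z), C.s) * ∑ j, ‖l j (fderiv ℂ (C.u ∘ e.symm) z 1)‖ ^ 2 := by
  rw [Curve.coeff_eq, mkForm_apply, ContinuousAlternatingMap.smul_apply, kform_apply, smul_eq_mul]

theorem nonneg_of_isIntegral {U : Opens (L × V)} (C : Curve U) (l : ι → L →L[ℂ] ℂ)
    (ψ : L × V → ℝ) (h0 : ∀ x, 0 ≤ ψ x)
    (h1 : ContDiff ℝ ∞ ψ) (h2 : HasCompactSupport ψ) (h3 : tsupport ψ ⊆ U) {I : ℝ}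
    (hI : C.IsIntegral (mkForm (kform V l) ψ h1 h2 h3) I) : 0 ≤ I := by
  obtain ⟨n, e, ρ, -, -, hρ, -, -, -, rfl⟩ := hI
  refine Finset.sum_nonneg fun i _ => integral_nonneg fun z => ?_
  refine mul_nonneg (hρ _ _) ?_
  rw [coeff_mkForm]
  exact mul_nonneg (h0 _) (Finset.sum_nonneg fun j _ => by positivity)

theorem zero_of_isIntegral {U : Opens (L × V)} (C : Curve U) (l : ι → L →L[ℂ] ℂ)
    (ψ : L × V → ℝ)
    (h1 : ContDiff ℝ ∞ ψ) (h2 : HasCompactSupport ψ) (h3 : tsupport ψ ⊆ U) {I : ℝ}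
    (hI : C.IsIntegral (mkForm (kform V l) ψ h1 h2 h3) I) (h : ∀ p, ψ (C.u p, C.s) = 0) :
    I = 0 := by
  obtain ⟨n, e, ρ, -, -, hρ, -, -, -, rfl⟩ := hI
  refine Finset.sum_eq_zero fun i _ => ?_
  have : ∀ z, ρ i ((e i).symm z) * C.coeff (mkForm (kform V l) ψ h1 h2 h3) (e i) z = 0 := by
    intro z
    rw [coeff_mkForm, h, zero_mul, mul_zero]
  simp [this]

theorem mfderiv_of_isIntegral [CompleteSpace L] {U : Opens (L × V)} (C : Curve U)
    (l : ι → L →L[ℂ] ℂ) (hl : ∀ x, (∀ j, l j x = 0) → x = 0)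
    (ψ : L × V → ℝ) (h0 : ∀ x, 0 ≤ ψ x)
    (h1 : ContDiff ℝ ∞ ψ) (h2 : HasCompactSupport ψ) (h3 : tsupport ψ ⊆ U)
    (hI : C.IsIntegral (mkForm (kform V l) ψ h1 h2 h3) 0) (p : C.S) (hp : 0 < ψ (C.u p, C.s)) :
    mfderiv 𝓘(ℂ) 𝓘(ℂ, L) C.u p = 0 := by
  obtain ⟨n, e, ρ, he, hρc, hρ, hρs, hρt, hsum, hI⟩ := hI
  by_contra hne
  have hpos : ∀ x : L, x ≠ 0 → 0 < ∑ j, ‖l j x‖ ^ 2 := by
    intro x hx
    obtain ⟨j, hj⟩ : ∃ j, l j x ≠ 0 := by
      by_contra hcon
      push Not at hcon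
      exact hx (hl x hcon)
    exact Finset.sum_pos' (fun j _ => by positivity) ⟨j, Finset.mem_univ j, by positivity⟩
  have hD : ∀ i, p ∈ (e i).source → fderiv ℂ (C.u ∘ (e i).symm) (e i p) 1 ≠ 0 := by
    intro i hi hz
    apply hne
    apply mfderiv_zero_of C.mdiff (he i) hi
    ext
    simpa using hz
  -- the form does not vanish at the point
  obtain ⟨x, hx⟩ : ∃ x : L, x ≠ 0 := by
    obtain ⟨v, hv⟩ : ∃ v, mfderiv 𝓘(ℂ) 𝓘(ℂ, L) C.u p v ≠ 0 := by
      by_contra hcon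
      push Not at hcon
      apply hne
      ext
      simpa using! hcon _
    exact ⟨_, hv⟩
  have hmem : (C.u p, C.s) ∈ tsupport (mkForm (kform V l) ψ h1 h2 h3) := by
    apply subset_tsupport
    rw [mem_support]
    intro h
    have h4 : ψ (C.u p, C.s) * ∑ j, ‖l j x‖ ^ 2 = 0 := by
      rw [← kform_apply (V := V)]
      exact congrArg (fun a : (L × V) [⋀^Fin 2]→L[ℝ] ℝ => a ![(x, 0), (Complex.I • x, 0)]) h
    exact (mul_pos hp (hpos x hx)).ne' h4
  have h5 := hsum p hmem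
  obtain ⟨i, -, hi⟩ : ∃ i ∈ Finset.univ, ρ i p ≠ 0 := by
    apply Finset.exists_ne_zero_of_sum_ne_zero
    rw [h5]
    exact one_ne_zero
  have hρp : 0 < ρ i p := lt_of_le_of_ne (hρ i p) hi.symm
  have hps : p ∈ (e i).source := hρt i (subset_tsupport _ hi)
  set F : ℂ → ℝ := fun z => ρ i ((e i).symm z) *
    C.coeff (mkForm (kform V l) ψ h1 h2 h3) (e i) z with hF
  have hF0 : ∀ z, 0 ≤ F z := by
    intro z
    refine mul_nonneg (hρ _ _) ?_
    rw [coeff_mkForm]
    exact mul_nonneg (h0 _) (Finset.sum_nonneg fun j _ => by positivity)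
  have hFc : ContinuousOn F (e i).target := by
    have k1 : ContinuousOn (fun z => ρ i ((e i).symm z)) (e i).target :=
      (hρc i).comp_continuousOn (e i).continuousOn_symm
    have k2 : ContinuousOn (fun z => ψ (C.u ((e i).symm z), C.s)) (e i).target := by
      refine h1.continuous.comp_continuousOn ?_
      exact (C.continuous.comp_continuousOn (e i).continuousOn_symm).prodMk continuousOn_const
    have k3 : ContinuousOn (fun z => fderiv ℂ (C.u ∘ (e i).symm) z) (e i).target := by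
      have h := (diffOn_symm C.mdiff (he i)).analyticOnNhd (e i).open_target
      exact h.fderiv.continuousOn
    have k4 : ContinuousOn (fun z => ∑ j, ‖l j (fderiv ℂ (C.u ∘ (e i).symm) z 1)‖ ^ 2)
        (e i).target := by
      refine continuousOn_finsetSum _ fun j _ => ?_
      refine ContinuousOn.pow (ContinuousOn.norm ?_) 2
      exact (l j).continuous.comp_continuousOn (k3.clm_apply continuousOn_const)
    have k5 : F = fun z => ρ i ((e i).symm z) * (ψ (C.u ((e i).symm z), C.s) *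
        ∑ j, ‖l j (fderiv ℂ (C.u ∘ (e i).symm) z 1)‖ ^ 2) := by
      funext z
      rw [hF]
      simp only [coeff_mkForm]
    rw [k5]
    exact k1.mul (k2.mul k4)
  set K : Set ℂ := (e i) '' tsupport (ρ i) with hK
  have hKc : IsCompact K := (hρs i).image_of_continuousOn ((e i).continuousOn.mono (hρt i))
  have hKt : K ⊆ (e i).target := by
    rintro _ ⟨q, hq, rfl⟩
    exact (e i).map_source (hρt i hq)
  have hint : IntegrableOn F (e i).target := by
    refine ((hFc.mono hKt).integrableOn_compact hKc).of_forall_sdiff_eq_zero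
      (e i).open_target.measurableSet ?_
    rintro z ⟨hz1, hz2⟩
    have : ρ i ((e i).symm z) = 0 := by
      by_contra h
      apply hz2
      exact ⟨(e i).symm z, subset_tsupport _ h, (e i).right_inv hz1⟩
    show ρ i ((e i).symm z) * _ = 0
    rw [this, zero_mul]
  have hpos' : 0 < ∫ z in (e i).target, F z := by
    rw [setIntegral_pos_iff_support_of_nonneg_ae (Eventually.of_forall hF0) hint]
    have hopen : IsOpen ((e i).target ∩ F ⁻¹' (Ioi 0)) :=
      hFc.isOpen_inter_preimage (e i).open_target isOpen_Ioi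
    have hz0 : e i p ∈ (e i).target ∩ F ⁻¹' (Ioi 0) := by
      refine ⟨(e i).map_source hps, ?_⟩
      show 0 < ρ i ((e i).symm (e i p)) * C.coeff (mkForm (kform V l) ψ h1 h2 h3) (e i) (e i p)
      rw [coeff_mkForm, (e i).left_inv hps]
      exact mul_pos hρp (mul_pos hp (hpos _ (hD i hps)))
    refine lt_of_lt_of_le (hopen.measure_pos volume ⟨_, hz0⟩) (measure_mono ?_)
    rintro z ⟨hz1, hz2⟩
    exact ⟨(ne_of_gt (mem_Ioi.1 hz2)), hz1⟩
  have hall : ∀ k ∈ Finset.univ, 0 ≤ ∫ z in (e k).target, ρ k ((e k).symm z) *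
      C.coeff (mkForm (kform V l) ψ h1 h2 h3) (e k) z := by
    intro k _
    refine integral_nonneg fun z => mul_nonneg (hρ _ _) ?_
    rw [coeff_mkForm]
    exact mul_nonneg (h0 _) (Finset.sum_nonneg fun j _ => by positivity)
  have := (Finset.sum_eq_zero_iff_of_nonneg hall).1 hI.symm i (Finset.mem_univ i)
  exact hpos'.ne' this

end Pool.Agent.K4H30.LC
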